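import Pool.Agent.Helper48_Refl.EnuBase

/-!
# Module ENUA
-/

namespace Pool.Agent.Refl.H48.Enu

open Pool.Agent.Refl Pool.Agent.Refl.H59 Matrix

theorem enA3_su (a b c : ℕ) : Su (fun k => K.enA3 a b c k) := by
  unfold K.enA3
  exact Su.ifb (Su.rng (fun N14 => Su.rng (fun N24 => Su.ifb (Su.fc
    (Su.rng (fun N34 => Su.ifb Su.emit) 0))) 0) 0)

theorem enA3_em {a b c x y z : ℕ} (h1 : K.pdU a b c = true) (hx : x < 4) (hy : y < 4)
    (h2 : K.pdU a x y = true) (h3 : 4 * x + y ≤ 4 * b + c) (hz : z < K.bAK a b c x y + 1)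
    (h4 : z ≠ 4) (h5 : K.conn a b x c y z = true) (h6 : K.sqs4 a b c x y z = true)
    (h7 : K.dpos a b c x y z = true) :
    Em (4 * K.pk [a, b, c, x, y, z] + 0) (K.small [a, b, c, x, y, z] = true)
      (fun k => K.enA3 a b c k) := by
  unfold K.enA3
  refine Em.ifb h1 (Em.rng (y := x) (fun N14 => Su.rng (fun N24 => Su.ifb (Su.fc
    (Su.rng (fun N34 => Su.ifb Su.emit) 0))) 0)
    (Nat.zero_le _) (by omega) (Em.rng (y := y) (fun N24 => Su.ifb (Su.fc
    (Su.rng (fun N34 => Su.ifb Su.emit) 0))) (Nat.zero_le _) (by omega)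
    (Em.ifb ?_ (Em.fc (Em.rng (y := z) (fun N34 => Su.ifb Su.emit) (Nat.zero_le _) (by
      show z < 0 + (K.bAK a b c x y + 1); omega) (Em.ifb ?_ Em.emit))))))
  · rw [ands_true, ble_true]
    exact ⟨h2, h3⟩
  · rw [ands_true, ands_true, ands_true, notb_beq]
    exact ⟨h4, h5, h6, h7⟩

theorem enA_em {a b c x y z : ℕ} (hb : b < 4) (hc : c < 4) (h1 : K.pdU a b c = true)
    (hx : x < 4) (hy : y < 4)
    (h2 : K.pdU a x y = true) (h3 : 4 * x + y ≤ 4 * b + c) (hz : z < K.bAK a b c x y + 1)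
    (h4 : z ≠ 4) (h5 : K.conn a b x c y z = true) (h6 : K.sqs4 a b c x y z = true)
    (h7 : K.dpos a b c x y z = true) :
    Em (4 * K.pk [a, b, c, x, y, z] + 0) (K.small [a, b, c, x, y, z] = true)
      (fun k => K.enA a k) := by
  unfold K.enA
  exact Em.rng (y := b) (fun N13 => Su.rng (fun N23 => enA3_su a N13 N23) 0) (Nat.zero_le _)
    (by omega) (Em.rng (y := c) (fun N23 => enA3_su a b N23) (Nat.zero_le _) (by omega)
    (enA3_em h1 hx hy h2 h3 hz h4 h5 h6 h7))

theorem enuA (hS : SqKStmt) (hK : KNumStmt) (hN : NNStmt) (hCy : CycStmt) (hVP : VertexPosStmt)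
    (hP : PosNStmt) (hNeg : NegNStmt) (hD : DetSignStmt) : EnuAStmt := by
  intro L hen G m f O i1 i2 i3 i4 hL hC hA
  have r1 := hC.root i1
  have r2 := hC.root i2
  have r3 := hC.root i3
  have r4 := hC.root i4
  obtain ⟨d12, d23, d13, _⟩ := hA.v3
  obtain ⟨_, d24, d14, _⟩ := hA.v4
  have d34 := hA.ne
  have p3 := pos3 hL hC hVP hP hA.v3
  have p4 := pos3 hL hC hVP hP hA.v4
  have hind := indep4 hL hC hD hA.v3 d14.symm d24.symm d34.symm
  have hobt := obt4 hC d12 d13 d14 d23 d24 d34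
  obtain ⟨l, hl, hrun⟩ := hen (nn G (f i1) (f i2)) (by omega)
  have key := enA_em (a := nn G (f i1) (f i2)) (b := nn G (f i1) (f i3))
    (c := nn G (f i2) (f i3)) (x := nn G (f i1) (f i4)) (y := nn G (f i2) (f i4))
    (z := nn G (f i3) (f i4)) (by omega) (by omega) (pdU3 hS hL hC hVP hP hA.v3) (by omega)
    (by omega) (pdU3 hS hL hC hVP hP hA.v4) hA.ord (by
      have := hA.bd
      rw [← hK.2.2.2.2.2.2.2.2] at this
      omega) (nn_ne_four hC hL hN d34) (by
      have hc := hA.conn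
      unfold Conn4 at hc
      unfold K.conn
      simp only [ands_true, ble_true, Nat.add_eq]
      omega) (by
      unfold K.sqs4
      simp only [ands_true]
      have q1 := isq4 hS hCy hL r1 r2 r3 r4
      have q2 := isq4 hS hCy hL r1 r2 r4 r3
      have q3 := isq4 hS hCy hL r1 r3 r2 r4
      rw [nn_symm hL.symm (f i4) (f i3)] at q2
      rw [nn_symm hL.symm (f i3) (f i2)] at q3
      exact ⟨⟨⟨isq3 hS hN hL r1 r2 r3, isq3 hS hN hL r1 r2 r4⟩, isq3 hS hN hL r1 r3 r4,
        isq3 hS hN hL r2 r3 r4⟩, q1, q2, q3⟩) (dpos4 hS hNeg hL hobt hind) K.nilB l hrun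
  refine ⟨_, hl key.1, ![i1, i2, i3, i4, i1, i1], ?_⟩
  unfold ConfX
  rw [code_mod (by norm_num), code_div (by norm_num)]
  have hg := fun i => pk_get i _ key.2
  have s0 : (![i1, i2, i3, i4, i1, i1] : Fin 6 → Fin m) 0 = i1 := rfl
  have s1 : (![i1, i2, i3, i4, i1, i1] : Fin 6 → Fin m) 1 = i2 := rfl
  have s2 : (![i1, i2, i3, i4, i1, i1] : Fin 6 → Fin m) 2 = i3 := rfl
  have s3 : (![i1, i2, i3, i4, i1, i1] : Fin 6 → Fin m) 3 = i4 := rfl
  have hlt : ∀ i j : Fin 6, (i : ℕ) < 4 → (j : ℕ) < 4 → i < j →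
      (![i1, i2, i3, i4, i1, i1] : Fin 6 → Fin m) i ≠
        (![i1, i2, i3, i4, i1, i1] : Fin 6 → Fin m) j ∧
      nn G (f ((![i1, i2, i3, i4, i1, i1] : Fin 6 → Fin m) i))
        (f ((![i1, i2, i3, i4, i1, i1] : Fin 6 → Fin m) j)) =
        K.nlo (K.pk [nn G (f i1) (f i2), nn G (f i1) (f i3), nn G (f i2) (f i3),
          nn G (f i1) (f i4), nn G (f i2) (f i4), nn G (f i3) (f i4)]) i j := by
    intro i j hi hj hij
    fin_cases i <;> fin_cases j <;> first
      | exact absurd hij (by decide)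
      | exact absurd hi (by decide)
      | exact absurd hj (by decide)
      | exact ⟨d12, (hg 0).symm⟩
      | exact ⟨d13, (hg 1).symm⟩
      | exact ⟨d23, (hg 2).symm⟩
      | exact ⟨d14, (hg 3).symm⟩
      | exact ⟨d24, (hg 4).symm⟩
      | exact ⟨d34, (hg 5).symm⟩
  constructor
  · exact le_refl _
  · exact by norm_num [K.sel]
  · exact fun _ => rfl
  · intro i j hi hj hij
    rcases lt_or_gt_of_ne hij with h | h
    · exact (hlt i j hi hj h).1
    · exact (hlt j i hj hi h).1.symm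
  · intro i j hi hj hij
    rcases lt_or_gt_of_ne hij with h | h
    · rw [(hlt i j hi hj h).2]
      have hb : Nat.blt (i : ℕ) (j : ℕ) = true := blt_true.2 h
      unfold K.nl
      rw [hb]
    · rw [nn_symm hL.symm, (hlt j i hj hi h).2]
      have hb : Nat.blt (i : ℕ) (j : ℕ) = false := by
        rw [← Bool.not_eq_true, blt_true]
        have : (j : ℕ) < i := h
        omega
      unfold K.nl
      rw [hb]
  · exact hA.v3
  · exact hA.v4
  · intro h; exact absurd h (by decide)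
  · intro h; exact absurd h (by decide)
  · intro h; exact absurd h (by decide)
  · intro h; exact absurd h (by decide)
  · intro h; exact absurd h (by decide)

end Pool.Agent.Refl.H48.Enu
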