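import Pool.Agent.Helper48_Refl.EnuBase

/-!
# Module ENUI
-/

namespace Pool.Agent.Refl.H48.Enu

open Pool.Agent.Refl Pool.Agent.Refl.H59 Matrix

theorem brec {b x y : Bool} (h : (Bool.rec x y b : Bool) = true) :
    (b = false ∧ x = true) ∨ (b = true ∧ y = true) := by
  cases b
  · exact Or.inl ⟨rfl, h⟩
  · exact Or.inr ⟨rfl, h⟩

theorem brec_t {b x y : Bool} (hb : b = true) : (Bool.rec x y b : Bool) = y := by
  subst hb; rfl

/-! ### the last number in case I -/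

theorem n45_or {a b c d e : ℕ} {f : ℕ → K.Kt} {k : K.Kt} {l : List ℕ}
    (h : K.n45IK a b c d e f k l = true) : k l = true ∨ ∃ n, f n l = true := by
  unfold K.n45IK at h
  rw [fc_eq] at h
  rcases brec h with ⟨_, h⟩ | ⟨_, h⟩
  · exact Or.inl h
  rw [fc_eq, fc_eq] at h
  rcases brec h with ⟨_, h⟩ | ⟨_, h⟩
  · exact Or.inl h
  rw [fc_eq] at h
  rcases brec h with ⟨_, h⟩ | ⟨_, h⟩
  · exact Or.inl h
  rw [fc_eq, fc_eq, fc_eq, fc_eq] at h
  rcases brec h with ⟨_, h⟩ | ⟨_, h⟩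
  · exact Or.inl h
  rw [fc_eq, fc_eq] at h
  rcases brec h with ⟨_, h⟩ | ⟨_, h⟩
  · exact Or.inl h
  rw [fc_eq] at h
  exact Or.inr ⟨_, h⟩

theorem Su.n45 {a b c d e : ℕ} {F : ℕ → K.Kt → K.Kt} (h : ∀ n, Su (F n)) :
    Su (fun k => K.n45IK a b c d e (fun n => F n k) k) := by
  intro k l hl
  rcases n45_or hl with h1 | ⟨n, h1⟩
  · exact ⟨l, fun _ hx => hx, h1⟩
  · exact h n k l h1

theorem n45_val (hS : SqKStmt) {N12 N34 N15 N25 N35 N45 T A : ℕ} {f : ℕ → K.Kt} {k : K.Kt}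
    {l : List ℕ} (h12 : N12 < 4) (_ : 4 < N34) (hT : T * T = N34 * N35 * N45)
    (hA : A = N25 + N15 + (Nat.sqrt (N12 * N15 * N25) + N12)) (h4 : 4 ≤ A)
    (hrel : (N45 + T + N35) * (4 - N12) = (N34 - 4) * (A - 4)) :
    K.n45IK N12 N34 N15 N25 N35 f k l = f N45 l := by
  have hA' : Nat.add (Nat.add N25 N15) (Nat.add (K.sqK (K.m3n N12 N15 N25)) N12) = A := by
    rw [hS, hA]; rfl
  have hq : 0 < 4 - N12 := by omega
  have hV : Nat.mul (Nat.sub N34 4) (Nat.sub A 4) = (N45 + T + N35) * (4 - N12) := by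
    rw [hrel]; rfl
  have e1 : Nat.mod ((N45 + T + N35) * (4 - N12)) (Nat.sub 4 N12) = 0 := Nat.mul_mod_left _ _
  have e2 : Nat.div ((N45 + T + N35) * (4 - N12)) (Nat.sub 4 N12) = N45 + T + N35 :=
    Nat.mul_div_cancel _ hq
  have e3 : Nat.sub (N45 + T + N35) N35 = N45 + T := Nat.add_sub_cancel _ _
  have e4 : Nat.add (Nat.mul (Nat.mul N34 N35) (Nat.mul N34 N35))
      (Nat.mul (Nat.mul 4 (Nat.mul N34 N35)) (N45 + T)) =
      (2 * T + N34 * N35) * (2 * T + N34 * N35) := by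
    show N34 * N35 * (N34 * N35) + 4 * (N34 * N35) * (N45 + T) = _
    nlinarith [hT]
  have e5 : K.sqK ((2 * T + N34 * N35) * (2 * T + N34 * N35)) = 2 * T + N34 * N35 := by
    rw [hS, Nat.sqrt_eq]
  have e6 : Nat.sub (2 * T + N34 * N35) (Nat.mul N34 N35) = 2 * T := Nat.add_sub_cancel _ _
  have e7 : Nat.div (2 * T) 2 = T := Nat.mul_div_cancel_left _ (by norm_num)
  have e8 : Nat.sub (N45 + T) T = N45 := Nat.add_sub_cancel _ _
  have b1 : Nat.beq (Nat.mul (2 * T + N34 * N35) (2 * T + N34 * N35))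
      ((2 * T + N34 * N35) * (2 * T + N34 * N35)) = true := beq_true.2 rfl
  have b2 : K.ands (Nat.beq (Nat.mul 2 T) (2 * T)) (Nat.ble T (N45 + T)) = true :=
    ands_true.2 ⟨beq_true.2 rfl, ble_true.2 (by omega)⟩
  have b3 : Nat.ble N35 (N45 + T + N35) = true := ble_true.2 (by omega)
  unfold K.n45IK
  rw [fc_eq, hA', brec_t (ble_true.2 h4), fc_eq, hV, fc_eq, brec_t (beq_true.2 e1), fc_eq, e2,
    brec_t b3, fc_eq, e3, fc_eq, fc_eq, e4, fc_eq, e5,
    brec_t b1, fc_eq, e6, fc_eq, e7, brec_t b2, fc_eq, e8]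

theorem Em.n45 (hS : SqKStmt) {N12 N34 N15 N25 N35 N45 T A : ℕ} {F : ℕ → K.Kt → K.Kt} {c : ℕ}
    {S : Prop} (h12 : N12 < 4) (h34 : 4 < N34) (hT : T * T = N34 * N35 * N45)
    (hA : A = N25 + N15 + (Nat.sqrt (N12 * N15 * N25) + N12)) (h4 : 4 ≤ A)
    (hrel : (N45 + T + N35) * (4 - N12) = (N34 - 4) * (A - 4)) (hF : Em c S (F N45)) :
    Em c S (fun k => K.n45IK N12 N34 N15 N25 N35 (fun n => F n k) k) := by
  intro k l hl
  replace hl : K.n45IK N12 N34 N15 N25 N35 (fun n => F n k) k l = true := hl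
  rw [n45_val hS h12 h34 hT hA h4 hrel] at hl
  exact hF k l hl

/-- the hypotheses of `Em.n45` from the geometry -/
theorem n45_geo (hN : NNStmt) (h45 : N45IStmt) {G : M4} (hL : Lat G) {a b c d e : Z4}
    (ho : Obt G [a, b, c, d, e]) (h1 : nn G a c = 0) (h2 : nn G a d = 0) (h3 : nn G b c = 0)
    (h4 : nn G b d = 0) (h5 : nn G a b < 4) (h6 : 4 < nn G c d) :
    ∃ T A : ℕ, T * T = nn G c d * nn G c e * nn G d e ∧
      A = nn G b e + nn G a e + (Nat.sqrt (nn G a b * nn G a e * nn G b e) + nn G a b) ∧ 4 ≤ A ∧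
      (nn G d e + T + nn G c e) * (4 - nn G a b) = (nn G c d - 4) * (A - 4) := by
  have rc := ho.root c (by simp)
  have rd := ho.root d (by simp)
  have re := ho.root e (by simp)
  have h := h45 G a b c d e hL ho h1 h2 h3 h4 h5 h6
  obtain ⟨T, hT⟩ := (hN G c d hL rc rd).2.2.2 e re
  have hT' : Nat.sqrt (nn G c d * nn G d e * nn G c e) = T := by rw [hT, Nat.sqrt_eq]
  rw [hT'] at h
  obtain ⟨A, hA⟩ : ∃ A, A = nn G b e + nn G a e +
    (Nat.sqrt (nn G a b * nn G a e * nn G b e) + nn G a b) := ⟨_, rfl⟩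
  have hA2 : Nat.sqrt (nn G a b * nn G b e * nn G a e) =
      Nat.sqrt (nn G a b * nn G a e * nn G b e) := by
    congr 1; ring
  rw [hA2] at h
  have hAz : (nn G b e : ℤ) + nn G a e + Nat.sqrt (nn G a b * nn G a e * nn G b e) + nn G a b - 4 =
      (A : ℤ) - 4 := by rw [hA]; push_cast; ring
  rw [hAz] at h
  have h5' : (nn G a b : ℤ) < 4 := by exact_mod_cast h5
  have h6' : (4 : ℤ) < nn G c d := by exact_mod_cast h6
  have h7 : (0 : ℤ) ≤ ((nn G d e : ℤ) + T + nn G c e) * (4 - nn G a b) :=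
    mul_nonneg (by positivity) (by linarith)
  have h8 : (4 : ℤ) ≤ A := by
    by_contra hcon
    push Not at hcon
    have : ((nn G c d : ℤ) - 4) * ((A : ℤ) - 4) < 0 :=
      mul_neg_of_pos_of_neg (by linarith) (by linarith)
    linarith
  have h8' : 4 ≤ A := by exact_mod_cast h8
  refine ⟨T, A, ?_, hA, h8', ?_⟩
  · rw [← hT]; ring
  · zify
    rw [Nat.cast_sub h5.le, Nat.cast_sub h6.le, Nat.cast_sub h8']
    push_cast
    exact h

/-! ### the number of the two new roots -/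

theorem n56_or {a b c d e g i : ℕ} {f : ℕ → K.Kt} {k : K.Kt} {l : List ℕ}
    (h : K.n56K a b c d e g i f k l = true) : k l = true ∨ ∃ n, f n l = true := by
  unfold K.n56K at h
  rw [fc_eq, fc_eq, fc_eq, fc_eq] at h
  cases hM : Nat.mul g i with
  | zero =>
    rw [hM] at h
    rcases brec h with ⟨_, h⟩ | ⟨_, h⟩
    · exact Or.inl h
    · rw [fc_eq] at h
      exact Or.inr ⟨_, h⟩
  | succ M =>
    rw [hM] at h
    simp only at h
    rw [fc_eq, fc_eq, fc_eq, fc_eq, fc_eq] at h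
    rcases brec h with ⟨_, h⟩ | ⟨_, h⟩
    · exact Or.inl h
    · rw [fc_eq] at h
      exact Or.inr ⟨_, h⟩

theorem Su.n56 {a b c d e g i : ℕ} {F : ℕ → K.Kt → K.Kt} (h : ∀ n, Su (F n)) :
    Su (fun k => K.n56K a b c d e g i (fun n => F n k) k) := by
  intro k l hl
  rcases n56_or hl with h1 | ⟨n, h1⟩
  · exact ⟨l, fun _ hx => hx, h1⟩
  · exact h n k l h1

theorem num_eq (hS : SqKStmt) (N34 N35 N36 N45 N46 : ℕ) :
    Nat.add (Nat.add (Nat.add (Nat.mul 4 (Nat.mul N35 N36)) (Nat.mul 4 (Nat.mul N45 N46)))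
    (Nat.add (Nat.mul N34 (Nat.mul N35 N46)) (Nat.mul N34 (Nat.mul N45 N36))))
    (Nat.add (Nat.add (Nat.mul 8 (K.sqK (K.m4n N35 N36 N46 N45)))
      (Nat.mul (Nat.mul 4 (Nat.add N35 N45)) (K.sqK (K.m3n N34 N36 N46))))
    (Nat.add (Nat.mul (Nat.mul 4 (Nat.add N36 N46)) (K.sqK (K.m3n N34 N35 N45)))
      (Nat.mul (Nat.mul 2 N34) (K.sqK (K.m4n N35 N36 N46 N45))))) =
    numC N34 N35 N36 N45 N46 := by
  rw [hS, hS, hS]
  unfold numC K.m3n K.m4n
  simp only [Nat.add_eq, Nat.mul_eq]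
  have e : N35 * N36 * (N46 * N45) = N35 * N36 * N46 * N45 := by ring
  rw [e]
  ring

theorem n56_val (hS : SqKStmt) {N34 N35 N36 N45 N46 N25 N26 N56 : ℕ} {f : ℕ → K.Kt} {k : K.Kt}
    {l : List ℕ} (h34 : 4 < N34) (hsq : IsSquare (N56 * (N25 * N26)))
    (h0 : N25 * N26 = 0 → N56 * ((N34 - 4) * (N34 - 4)) = numC N34 N35 N36 N45 N46)
    (h1 : N25 * N26 ≠ 0 → ((2 * Nat.sqrt (N56 * (N25 * N26)) + N25 * N26) * (N34 - 4)) *
      ((2 * Nat.sqrt (N56 * (N25 * N26)) + N25 * N26) * (N34 - 4)) =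
        4 * numC N34 N35 N36 N45 N46 * (N25 * N26)) :
    K.n56K N34 N35 N36 N45 N46 N25 N26 f k l = f N56 l := by
  have he : 0 < N34 - 4 := by omega
  unfold K.n56K
  rw [fc_eq, fc_eq, fc_eq, fc_eq, num_eq hS]
  cases hM : N25 * N26 with
  | zero =>
    have hM' : Nat.mul N25 N26 = 0 := hM
    rw [hM']
    have h2 := h0 hM
    have e1 : Nat.mod (numC N34 N35 N36 N45 N46) (Nat.mul (Nat.sub N34 4) (Nat.sub N34 4)) = 0 := by
      rw [← h2]; exact Nat.mul_mod_left _ _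
    have e2 : Nat.div (numC N34 N35 N36 N45 N46) (Nat.mul (Nat.sub N34 4) (Nat.sub N34 4)) =
        N56 := by
      rw [← h2]; exact Nat.mul_div_cancel _ (Nat.mul_pos he he)
    show (Bool.rec (k l) (K.fc (Nat.div (numC N34 N35 N36 N45 N46)
      (Nat.mul (Nat.sub N34 4) (Nat.sub N34 4))) fun N56 => f N56 l)
      (Nat.beq (Nat.mod (numC N34 N35 N36 N45 N46)
        (Nat.mul (Nat.sub N34 4) (Nat.sub N34 4))) 0) : Bool) = f N56 l
    rw [brec_t (beq_true.2 e1), fc_eq, e2]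
  | succ M =>
    have hM' : Nat.mul N25 N26 = M + 1 := hM
    rw [hM']
    obtain ⟨t, ht⟩ := hsq
    have h2 := h1 (by rw [hM]; omega)
    rw [ht, Nat.sqrt_eq, hM] at h2
    rw [hM] at ht
    have hm : 0 < M + 1 := Nat.succ_pos _
    have e1 : Nat.mul (Nat.mul 4 (numC N34 N35 N36 N45 N46)) (M + 1) =
        ((2 * t + (M + 1)) * (N34 - 4)) * ((2 * t + (M + 1)) * (N34 - 4)) := h2.symm
    have e2 : K.sqK (((2 * t + (M + 1)) * (N34 - 4)) * ((2 * t + (M + 1)) * (N34 - 4))) =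
        (2 * t + (M + 1)) * (N34 - 4) := by rw [hS, Nat.sqrt_eq]
    have e3 : Nat.div ((2 * t + (M + 1)) * (N34 - 4)) (Nat.sub N34 4) = 2 * t + (M + 1) :=
      Nat.mul_div_cancel _ he
    have e4 : Nat.mod ((2 * t + (M + 1)) * (N34 - 4)) (Nat.sub N34 4) = 0 := Nat.mul_mod_left _ _
    have e5 : Nat.sub (2 * t + (M + 1)) (M + 1) = 2 * t := Nat.add_sub_cancel _ _
    have e6 : Nat.div (2 * t) 2 = t := Nat.mul_div_cancel_left _ (by norm_num)
    have e7 : Nat.mod (Nat.mul t t) (M + 1) = 0 := by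
      show t * t % (M + 1) = 0
      rw [← ht]; exact Nat.mul_mod_left _ _
    have e8 : Nat.div (Nat.mul t t) (M + 1) = N56 := by
      show t * t / (M + 1) = N56
      rw [← ht]; exact Nat.mul_div_cancel _ hm
    show (K.fc (Nat.mul (Nat.mul 4 (numC N34 N35 N36 N45 N46)) (M + 1)) fun x =>
      K.fc (K.sqK x) fun r =>
      K.fc (Nat.div r (Nat.sub N34 4)) fun y => K.fc (Nat.sub y (M + 1)) fun d =>
      K.fc (Nat.div d 2) fun t =>
      (Bool.rec (k l) (K.fc (Nat.div (Nat.mul t t) (M + 1)) fun N56 => f N56 l)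
        (K.ands (K.ands (Nat.beq (Nat.mul r r) x) (Nat.beq (Nat.mod r (Nat.sub N34 4)) 0))
          (K.ands (K.ands (Nat.ble (M + 1) y) (Nat.beq (Nat.mul 2 t) d))
            (Nat.beq (Nat.mod (Nat.mul t t) (M + 1)) 0))) : Bool)) = f N56 l
    have b1 : K.ands (K.ands (Nat.beq (Nat.mul ((2 * t + (M + 1)) * (N34 - 4))
        ((2 * t + (M + 1)) * (N34 - 4)))
        (((2 * t + (M + 1)) * (N34 - 4)) * ((2 * t + (M + 1)) * (N34 - 4))))
        (Nat.beq (Nat.mod ((2 * t + (M + 1)) * (N34 - 4)) (Nat.sub N34 4)) 0))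
        (K.ands (K.ands (Nat.ble (M + 1) (2 * t + (M + 1))) (Nat.beq (Nat.mul 2 t) (2 * t)))
          (Nat.beq (Nat.mod (Nat.mul t t) (M + 1)) 0)) = true :=
      ands_true.2 ⟨ands_true.2 ⟨beq_true.2 rfl, beq_true.2 e4⟩, ands_true.2
        ⟨ands_true.2 ⟨ble_true.2 (Nat.le_add_left _ _), beq_true.2 rfl⟩, beq_true.2 e7⟩⟩
    rw [fc_eq, e1, fc_eq, e2, fc_eq, e3, fc_eq, e5, fc_eq, e6, brec_t b1, fc_eq, e8]

theorem Em.n56 (hS : SqKStmt) {N34 N35 N36 N45 N46 N25 N26 N56 : ℕ} {F : ℕ → K.Kt → K.Kt} {c : ℕ}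
    {S : Prop} (h34 : 4 < N34) (hsq : IsSquare (N56 * (N25 * N26)))
    (h0 : N25 * N26 = 0 → N56 * ((N34 - 4) * (N34 - 4)) = numC N34 N35 N36 N45 N46)
    (h1 : N25 * N26 ≠ 0 → ((2 * Nat.sqrt (N56 * (N25 * N26)) + N25 * N26) * (N34 - 4)) *
      ((2 * Nat.sqrt (N56 * (N25 * N26)) + N25 * N26) * (N34 - 4)) =
        4 * numC N34 N35 N36 N45 N46 * (N25 * N26)) (hF : Em c S (F N56)) :
    Em c S (fun k => K.n56K N34 N35 N36 N45 N46 N25 N26 (fun n => F n k) k) := by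
  intro k l hl
  replace hl : K.n56K N34 N35 N36 N45 N46 N25 N26 (fun n => F n k) k l = true := hl
  rw [n56_val hS h34 hsq h0 h1] at hl
  exact hF k l hl

theorem enI6_su (a b c d : ℕ) : Su (fun k => K.enI6 a b c d k) := by
  unfold K.enI6
  refine Su.fc (Su.fc (Su.rng (fun N26 => Su.rng (fun N36 => Su.fc (Su.rng (fun N16 =>
    Su.ifb (Su.n45 (fun N46 => Su.ifb (Su.n56 (fun N56 => Su.ifb Su.emit))))) 0)) 0) 0))

theorem enI_su (a b : ℕ) : Su (fun k => K.enI a b k) := by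
  unfold K.enI
  refine Su.fc (Su.fc (Su.rng (fun N15 => Su.ifb (Su.rng (fun N35 => Su.fc (Su.rng (fun N25 =>
    Su.ifb (Su.n45 (fun N45 => Su.ifb (Su.ite (enI6_su _ _ _ _) Su.emit)))) 0)) 0)) 0))

theorem enI6_em (hS : SqKStmt) {N34 N25 N35 N45 N16 N26 N36 N46 N56 T A : ℕ} (h34 : 4 < N34)
    (h1 : N26 < 4) (h2 : N36 < 4 - N26)
    (h3 : N16 < K.farK 0 0 N26 N36 (K.lCK N34 N25 N35) (K.muIK N34) + 1) (h4 : N16 ≠ 4)
    (hT : T * T = N34 * N36 * N46) (hA : A = N16 + N26 + (Nat.sqrt (0 * N26 * N16) + 0))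
    (hA4 : 4 ≤ A) (hrel : (N46 + T + N36) * (4 - 0) = (N34 - 4) * (A - 4)) (h5 : N46 ≠ 4)
    (hsq : IsSquare (N56 * (N25 * N26)))
    (h0 : N25 * N26 = 0 → N56 * ((N34 - 4) * (N34 - 4)) = numC N34 N35 N36 N45 N46)
    (h0' : N25 * N26 ≠ 0 → ((2 * Nat.sqrt (N56 * (N25 * N26)) + N25 * N26) * (N34 - 4)) *
      ((2 * Nat.sqrt (N56 * (N25 * N26)) + N25 * N26) * (N34 - 4)) =
        4 * numC N34 N35 N36 N45 N46 * (N25 * N26)) (h6 : N56 ≠ 4)
    (h7 : K.sqs6 N34 N25 N35 N45 N26 N36 N46 N56 = true)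
    (h8 : K.dpos 0 0 0 N16 N26 N36 = true) :
    Em (4 * K.pk [0, 0, 0, 0, 0, N34, 0, N25, N35, N45, N16, N26, N36, N46, N56] + 3)
      (K.small [0, 0, 0, 0, 0, N34, 0, N25, N35, N45, N16, N26, N36, N46, N56] = true)
      (fun k => K.enI6 N34 N25 N35 N45 k) := by
  unfold K.enI6
  refine Em.fc (Em.fc (Em.rng (y := N26) (fun N26 => Su.rng (fun N36 => Su.fc (Su.rng (fun N16 =>
    Su.ifb (Su.n45 (fun N46 => Su.ifb (Su.n56 (fun N56 => Su.ifb Su.emit))))) 0)) 0)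
    (Nat.zero_le _) (by omega) (Em.rng (y := N36) (fun N36 => Su.fc (Su.rng (fun N16 =>
    Su.ifb (Su.n45 (fun N46 => Su.ifb (Su.n56 (fun N56 => Su.ifb Su.emit))))) 0))
    (Nat.zero_le _) (by show N36 < 0 + (4 - N26); omega) (Em.fc (Em.rng (y := N16) (fun N16 =>
    Su.ifb (Su.n45 (fun N46 => Su.ifb (Su.n56 (fun N56 => Su.ifb Su.emit)))))
    (Nat.zero_le _) (by
      show N16 < 0 + (K.farK 0 0 N26 N36 (K.lCK N34 N25 N35) (K.muIK N34) + 1); omega)
    (Em.ifb (notb_beq.2 h4) (Em.n45 hS (by norm_num) h34 hT hA hA4 hrel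
    (Em.ifb (notb_beq.2 h5) (Em.n56 hS h34 hsq h0 h0' (Em.ifb ?_ Em.emit))))))))))
  rw [ands_true, ands_true, notb_beq]
  exact ⟨h6, h7, h8⟩

theorem enI_em (hS : SqKStmt) {N12 N34 N15 N25 N35 N45 T A c : ℕ} {S : Prop} (h12 : N12 < 4)
    (h34 : 4 < N34) (h1 : N15 < 4) (hb : N12 = 0 → N15 ≤ 1) (h2 : N35 < 4 - N15)
    (h3 : N25 < K.farK 0 N12 N15 N35 (K.lamIK N12) (K.muIK N34) + 1) (h4 : N25 ≠ 4)
    (h4' : K.isq (K.m3n N12 N15 N25) = true)
    (hT : T * T = N34 * N35 * N45) (hA : A = N25 + N15 + (Nat.sqrt (N12 * N15 * N25) + N12))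
    (hA4 : 4 ≤ A) (hrel : (N45 + T + N35) * (4 - N12) = (N34 - 4) * (A - 4)) (h5 : N45 ≠ 4)
    (h6 : K.isq (K.m3n N34 N35 N45) = true) (h7 : K.dpos N12 0 0 N15 N25 N35 = true)
    (hfin : Em c S (fun k => K.ifb (K.ands (Nat.beq N12 0) (Nat.beq N15 0))
      (K.enI6 N34 N25 N35 N45 k) (K.emit 1 [N12, 0, 0, 0, 0, N34, N15, N25, N35, N45] k))) :
    Em c S (fun k => K.enI N12 N34 k) := by
  unfold K.enI
  refine Em.fc (Em.fc (Em.rng (y := N15) (fun N15 => Su.ifb (Su.rng (fun N35 => Su.fc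
    (Su.rng (fun N25 => Su.ifb (Su.n45 (fun N45 => Su.ifb (Su.ite (enI6_su _ _ _ _) Su.emit))))
    0)) 0)) (Nat.zero_le _) (by omega) (Em.ifb ?_ (Em.rng (y := N35) (fun N35 => Su.fc
    (Su.rng (fun N25 => Su.ifb (Su.n45 (fun N45 => Su.ifb (Su.ite (enI6_su _ _ _ _) Su.emit))))
    0)) (Nat.zero_le _) (by show N35 < 0 + (4 - N15); omega) (Em.fc (Em.rng (y := N25)
    (fun N25 => Su.ifb (Su.n45 (fun N45 => Su.ifb (Su.ite (enI6_su _ _ _ _) Su.emit))))
    (Nat.zero_le _) (by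
      show N25 < 0 + (K.farK 0 N12 N15 N35 (K.lamIK N12) (K.muIK N34) + 1); omega)
    (Em.ifb ?_ (Em.n45 hS h12 h34 hT hA hA4 hrel (Em.ifb ?_ hfin)))))))))
  · rw [notb_true, ← Bool.not_eq_true, ands_true, beq_true, blt_true]
    rintro ⟨h8, h9⟩
    have := hb h8
    omega
  · rw [ands_true, notb_beq]
    exact ⟨h4, h4'⟩
  · rw [ands_true, ands_true, notb_beq]
    exact ⟨h5, h6, h7⟩

/-! ### configurations -/

theorem conf_ij {G : M4} (hL : Lat G) {m : ℕ} {f : Fin m → Z4} {n code : ℕ}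
    {σ : Fin 6 → Fin m} (h : ∀ i j : Fin 6, i < j → (j : ℕ) < n → σ i ≠ σ j ∧
      nn G (f (σ i)) (f (σ j)) = K.nlo code i j) :
    (∀ i j : Fin 6, (i : ℕ) < n → (j : ℕ) < n → i ≠ j → σ i ≠ σ j) ∧
    (∀ i j : Fin 6, (i : ℕ) < n → (j : ℕ) < n → i ≠ j →
      nn G (f (σ i)) (f (σ j)) = K.nl code i j) := by
  constructor
  · intro i j hi hj hij
    rcases lt_or_gt_of_ne hij with h' | h'
    · exact (h i j h' hj).1
    · exact (h j i h' hi).1.symm
  · intro i j hi hj hij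
    rcases lt_or_gt_of_ne hij with h' | h'
    · rw [(h i j h' hj).2]
      have hb : Nat.blt (i : ℕ) (j : ℕ) = true := blt_true.2 h'
      unfold K.nl
      rw [hb]
    · rw [nn_symm hL.symm, (h j i h' hi).2]
      have hb : Nat.blt (i : ℕ) (j : ℕ) = false := by
        rw [← Bool.not_eq_true, blt_true]
        have : (j : ℕ) < i := h'
        omega
      unfold K.nl
      rw [hb]

theorem farL_eq (hK : KNumStmt) (tag code e : ℕ) : K.farL tag code (e + 1) =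
    l2I (K.nl code 0 1) (K.nl code 0 4) (K.nl code 2 3) (K.nl code 1 4) (K.nl code 2 4) := by
  show (Bool.rec 0
      (Bool.rec (K.muIK (K.nl code 2 3)) (K.lCK (K.nl code 2 3) (K.nl code 1 4) (K.nl code 2 4))
        (Nat.beq (K.nl code 0 4) 0))
      (Nat.beq (K.nl code 0 1) 0) : ℕ) = _
  rw [hK.2.2.1, hK.2.2.2.2.2.1]
  unfold l2I
  cases h1 : Nat.beq (K.nl code 0 1) 0 with
  | false =>
    have : K.nl code 0 1 ≠ 0 := by
      intro h; rw [beq_true.2 h] at h1; exact absurd h1 (by decide)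
    rw [if_neg this]
  | true =>
    rw [if_pos (beq_true.1 h1)]
    cases h2 : Nat.beq (K.nl code 0 4) 0 with
    | false =>
      have : K.nl code 0 4 ≠ 0 := by
        intro h; rw [beq_true.2 h] at h2; exact absurd h2 (by decide)
      rw [if_neg this]
    | true => rw [if_pos (beq_true.1 h2)]

theorem obt5 {G : M4} {m : ℕ} {f : Fin m → Z4} {O : R4} (hC : Cham G m f O) {i j k l o : Fin m}
    (h1 : i ≠ j) (h2 : i ≠ k) (h3 : i ≠ l) (h4 : j ≠ k) (h5 : j ≠ l) (h6 : k ≠ l)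
    (h7 : i ≠ o) (h8 : j ≠ o) (h9 : k ≠ o) (h10 : l ≠ o) :
    Obt G [f i, f j, f k, f l, f o] := by
  constructor
  · intro a ha
    simp only [List.mem_cons, List.not_mem_nil, or_false] at ha
    rcases ha with rfl | rfl | rfl | rfl | rfl <;> exact hC.root _
  · simp only [List.pairwise_cons, List.mem_cons, List.not_mem_nil, or_false, forall_eq_or_imp,
      forall_eq, false_implies, implies_true, List.Pairwise.nil, and_true]
    exact ⟨⟨hC.obt _ _ h1, hC.obt _ _ h2, hC.obt _ _ h3, hC.obt _ _ h7⟩,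
      ⟨hC.obt _ _ h4, hC.obt _ _ h5, hC.obt _ _ h8⟩, ⟨hC.obt _ _ h6, hC.obt _ _ h9⟩,
      hC.obt _ _ h10⟩

theorem obt6 {G : M4} {m : ℕ} {f : Fin m → Z4} {O : R4} (hC : Cham G m f O)
    {i j k l o p : Fin m}
    (h1 : i ≠ j) (h2 : i ≠ k) (h3 : i ≠ l) (h4 : j ≠ k) (h5 : j ≠ l) (h6 : k ≠ l)
    (h7 : i ≠ o) (h8 : j ≠ o) (h9 : k ≠ o) (h10 : l ≠ o) (h11 : i ≠ p) (h12 : j ≠ p)
    (h13 : k ≠ p) (h14 : l ≠ p) (h15 : o ≠ p) :
    Obt G [f i, f j, f k, f l, f o, f p] := by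
  constructor
  · intro a ha
    simp only [List.mem_cons, List.not_mem_nil, or_false] at ha
    rcases ha with rfl | rfl | rfl | rfl | rfl | rfl <;> exact hC.root _
  · simp only [List.pairwise_cons, List.mem_cons, List.not_mem_nil, or_false, forall_eq_or_imp,
      forall_eq, false_implies, implies_true, List.Pairwise.nil, and_true]
    exact ⟨⟨hC.obt _ _ h1, hC.obt _ _ h2, hC.obt _ _ h3, hC.obt _ _ h7, hC.obt _ _ h11⟩,
      ⟨hC.obt _ _ h4, hC.obt _ _ h5, hC.obt _ _ h8, hC.obt _ _ h12⟩,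
      ⟨hC.obt _ _ h6, hC.obt _ _ h9, hC.obt _ _ h13⟩, ⟨hC.obt _ _ h10, hC.obt _ _ h14⟩,
      hC.obt _ _ h15⟩

theorem enuI (hS : SqKStmt) (hK : KNumStmt) (hN : NNStmt) (hCy : CycStmt) (hVP : VertexPosStmt)
    (hP : PosNStmt) (hNeg : NegNStmt) (hD : DetSignStmt) (hF : FarEndStmt) (h45 : N45IStmt)
    (h56 : N56Stmt) : EnuIStmt := by
  intro L hen G m f O i1 i2 i3 i4 i5 hL hC hI
  have r1 := hC.root i1
  have r2 := hC.root i2
  have r3 := hC.root i3
  have r4 := hC.root i4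
  have r5 := hC.root i5
  obtain ⟨d12, d23, d13, _⟩ := hI.v3
  obtain ⟨_, d24, d14, _⟩ := hI.v4
  obtain ⟨_, d35, d15, _⟩ := hI.v5
  have d25 := hI.ne5.symm
  have d34 := hI.ne
  have n13 := hI.n13
  have n14 := hI.n14
  have n23 := hI.n23
  have n24 := hI.n24
  have n34 := hI.n34
  have d45 : i4 ≠ i5 := by
    intro h
    have h1 := (hVP G m f O hL hC i1 i3 i5 hI.v5).2.2.1
    rw [← h] at h1
    have := nn_lt hL hN hC h1
    omega
  have p3 := pos3 hL hC hVP hP hI.v3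
  have p5 := pos3 hL hC hVP hP hI.v5
  rw [n13] at p5
  have hind := indep4 hL hC hD hI.v3 d15.symm hI.ne5 d35.symm
  have hobt4 := obt4 hC d12 d13 d15 d23 d25 d35
  have hobt := obt5 hC d12 d13 d14 d23 d24 d34 d15 d25 d35 d45
  have h12 : nn G (f i1) (f i2) < 4 := by omega
  have h34 : 4 < nn G (f i3) (f i4) := by omega
  obtain ⟨T, A, hT, hA, hA4, hrel⟩ := n45_geo hN h45 hL hobt n13 n14 n23 n24 h12 h34
  have hdp := dpos4 hS hNeg hL hobt4 hind
  rw [n13, n23] at hdp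
  have hfar := hI.far13 i5 hI.ne5 hI.v5
  rw [n13, ← hK.2.1, ← hK.2.2.1, ← hK.1] at hfar
  obtain ⟨l, hl, hrun⟩ := hen (nn G (f i1) (f i2)) (nn G (f i3) (f i4)) h12 n34 hI.b34
  have main : ∀ (c : ℕ) (S : Prop), Em c S (fun k => K.ifb (K.ands
      (Nat.beq (nn G (f i1) (f i2)) 0) (Nat.beq (nn G (f i1) (f i5)) 0))
      (K.enI6 (nn G (f i3) (f i4)) (nn G (f i2) (f i5)) (nn G (f i3) (f i5))
        (nn G (f i4) (f i5)) k)
      (K.emit 1 [nn G (f i1) (f i2), 0, 0, 0, 0, nn G (f i3) (f i4), nn G (f i1) (f i5),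
        nn G (f i2) (f i5), nn G (f i3) (f i5), nn G (f i4) (f i5)] k)) → c ∈ l ∧ S := by
    intro c S hfin
    exact enI_em hS h12 h34 (by omega) hI.b15 (by omega) (by omega) (nn_ne_four hC hL hN d25)
      (isq3 hS hN hL r1 r2 r5) hT hA hA4 hrel (nn_ne_four hC hL hN d45)
      (isq3 hS hN hL r3 r4 r5) hdp hfin K.nilB l hrun
  by_cases hz : nn G (f i1) (f i2) = 0 ∧ nn G (f i1) (f i5) = 0
  · obtain ⟨n12, n15⟩ := hz
    have hv23 : IsV G f i2 i3 i1 := sw23 (sw12 hI.v3)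
    obtain ⟨i6, d61, hv6⟩ := hF G m f O hL hC i2 i3 i1 hv23
    obtain ⟨_, d36, d26, _⟩ := id hv6
    have d16 := d61.symm
    have r6 := hC.root i6
    have d46 : i4 ≠ i6 := by
      intro h
      have h1 := (hVP G m f O hL hC i2 i3 i6 hv6).2.2.1
      rw [← h] at h1
      have := nn_lt hL hN hC h1
      omega
    have d56 : i5 ≠ i6 := by
      intro h
      rw [← h] at hv6
      have h1 := pos3 hL hC hVP hP hv6
      have h2 := hNeg G _ _ _ _ hL hobt4 hind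
      simp only [n12, n13, n15, n23, zero_mul, Nat.sqrt_zero, Nat.cast_zero] at h2
      push_cast at h2
      have h3 : (4 : ℤ) < nn G (f i2) (f i5) + nn G (f i3) (f i5) := by linarith
      have h4 : 4 < nn G (f i2) (f i5) + nn G (f i3) (f i5) := by exact_mod_cast h3
      omega
    have p6 := pos3 hL hC hVP hP hv6
    have hind6 := indep4 hL hC hD hI.v3 d16.symm d26.symm d36.symm
    have hobt46 := obt4 hC d12 d13 d16 d23 d26 d36
    have hobt56 := obt5 hC d12.symm d23 d24 d13 d14 d34 d26 d16 d36 d46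
    have n21 : nn G (f i2) (f i1) = 0 := by rw [nn_symm hL.symm]; exact n12
    obtain ⟨T', A', hT', hA', hA4', hrel'⟩ := n45_geo hN h45 hL hobt56 n23 n24 n13 n14
      (by rw [n21]; norm_num) h34
    rw [n21] at hA' hrel'
    have hdp6 := dpos4 hS hNeg hL hobt46 hind6
    rw [n12, n13, n23] at hdp6
    have hfar6 := hI.far23 i6 d61 hv6
    have hl2 : l2I (nn G (f i1) (f i2)) (nn G (f i1) (f i5)) (nn G (f i3) (f i4))
        (nn G (f i2) (f i5)) (nn G (f i3) (f i5)) =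
        lC (nn G (f i3) (f i4)) (nn G (f i2) (f i5)) (nn G (f i3) (f i5)) := by
      unfold l2I
      rw [if_pos n12, if_pos n15]
    rw [hl2, n23, n21, ← hK.2.2.1, ← hK.2.2.2.2.2.1, ← hK.1] at hfar6
    have hobt66 := obt6 hC d12 d13 d14 d23 d24 d34 d15 d25 d35 d45 d16 d26 d36 d46 d56
    have h5 := h56 G _ _ _ _ _ _ hL hobt66 n12 n13 n14 n23 n24 h34 n15
    simp only at h5
    have hsq : IsSquare (nn G (f i5) (f i6) * (nn G (f i2) (f i5) * nn G (f i2) (f i6))) := by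
      have := (hN G (f i2) (f i5) hL r2 r5).2.2.2 (f i6) r6
      have e : nn G (f i5) (f i6) * (nn G (f i2) (f i5) * nn G (f i2) (f i6)) =
        nn G (f i2) (f i5) * nn G (f i5) (f i6) * nn G (f i2) (f i6) := by ring
      rw [e]; exact this
    have hem := enI6_em hS (N34 := nn G (f i3) (f i4)) (N25 := nn G (f i2) (f i5))
      (N35 := nn G (f i3) (f i5)) (N45 := nn G (f i4) (f i5)) (N16 := nn G (f i1) (f i6))
      (N26 := nn G (f i2) (f i6)) (N36 := nn G (f i3) (f i6)) (N46 := nn G (f i4) (f i6))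
      (N56 := nn G (f i5) (f i6)) h34 (by omega) (by omega) (by omega)
      (nn_ne_four hC hL hN d16) hT' hA' hA4' hrel' (nn_ne_four hC hL hN d46) hsq
      (by intro h0; rw [← h5.1 h0]; ring) (by intro h0; rw [← h5.2 h0]; ring)
      (nn_ne_four hC hL hN d56) (by
        unfold K.sqs6
        simp only [ands_true]
        have q1 := isq4 hS hCy hL r2 r5 r3 r6
        have q2 := isq4 hS hCy hL r2 r5 r4 r6
        have q3 := isq4 hS hCy hL r3 r4 r5 r6
        have q4 := isq4 hS hCy hL r3 r4 r6 r5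
        have q5 := isq4 hS hCy hL r3 r5 r4 r6
        rw [nn_symm hL.symm (f i5) (f i3)] at q1
        rw [nn_symm hL.symm (f i5) (f i4)] at q2
        rw [nn_symm hL.symm (f i6) (f i5)] at q4
        rw [nn_symm hL.symm (f i5) (f i4)] at q5
        exact ⟨⟨⟨isq3 hS hN hL r2 r5 r6, isq3 hS hN hL r3 r4 r6⟩, isq3 hS hN hL r3 r5 r6,
          isq3 hS hN hL r4 r5 r6⟩, ⟨q1, q2⟩, q3, q4, q5⟩) hdp6
    have key := main _ _ (Em.ifb (ands_true.2 ⟨beq_true.2 n12, beq_true.2 n15⟩) hem)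
    refine ⟨_, hl key.1, ![i1, i2, i3, i4, i5, i6], ?_⟩
    unfold ConfX
    rw [code_mod (by norm_num), code_div (by norm_num)]
    have hg := fun i => pk_get i _ key.2
    obtain ⟨hinj, hnum⟩ := conf_ij (n := 6) hL (f := f) (σ := ![i1, i2, i3, i4, i5, i6])
      (code := K.pk [0, 0, 0, 0, 0, nn G (f i3) (f i4), 0, nn G (f i2) (f i5),
        nn G (f i3) (f i5), nn G (f i4) (f i5), nn G (f i1) (f i6), nn G (f i2) (f i6),
        nn G (f i3) (f i6), nn G (f i4) (f i6), nn G (f i5) (f i6)]) (by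
      intro i j hij hj
      fin_cases i <;> fin_cases j <;> first
        | exact absurd hij (by decide)
        | exact ⟨d12, n12.trans (hg 0).symm⟩
        | exact ⟨d13, n13.trans (hg 1).symm⟩
        | exact ⟨d23, n23.trans (hg 2).symm⟩
        | exact ⟨d14, n14.trans (hg 3).symm⟩
        | exact ⟨d24, n24.trans (hg 4).symm⟩
        | exact ⟨d34, (hg 5).symm⟩
        | exact ⟨d15, n15.trans (hg 6).symm⟩
        | exact ⟨d25, (hg 7).symm⟩
        | exact ⟨d35, (hg 8).symm⟩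
        | exact ⟨d45, (hg 9).symm⟩
        | exact ⟨d16, (hg 10).symm⟩
        | exact ⟨d26, (hg 11).symm⟩
        | exact ⟨d36, (hg 12).symm⟩
        | exact ⟨d46, (hg 13).symm⟩
        | exact ⟨d56, (hg 14).symm⟩)
    have m01 := hnum 0 1 (by decide) (by decide) (by decide)
    have m23 := hnum 2 3 (by decide) (by decide) (by decide)
    have m04 := hnum 0 4 (by decide) (by decide) (by decide)
    have m14 := hnum 1 4 (by decide) (by decide) (by decide)
    have m24 := hnum 2 4 (by decide) (by decide) (by decide)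
    obtain ⟨code, hcode⟩ : ∃ code, code = K.pk [0, 0, 0, 0, 0, nn G (f i3) (f i4), 0,
        nn G (f i2) (f i5), nn G (f i3) (f i5), nn G (f i4) (f i5), nn G (f i1) (f i6),
        nn G (f i2) (f i6), nn G (f i3) (f i6), nn G (f i4) (f i6), nn G (f i5) (f i6)] :=
      ⟨_, rfl⟩
    rw [← hcode] at hnum m01 m23 m04 m14 m24 ⊢
    replace m01 : nn G (f i1) (f i2) = K.nl code 0 1 := m01
    replace m23 : nn G (f i3) (f i4) = K.nl code 2 3 := m23
    replace m04 : nn G (f i1) (f i5) = K.nl code 0 4 := m04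
    replace m14 : nn G (f i2) (f i5) = K.nl code 1 4 := m14
    replace m24 : nn G (f i3) (f i5) = K.nl code 2 4 := m24
    constructor
    · exact (by decide : 4 ≤ K.sel 3 4 5 5 6)
    · exact (by decide : K.sel 3 4 5 5 6 ≤ 6)
    · intro h; exact absurd h (by decide)
    · exact hinj
    · exact hnum
    · exact hI.v3
    · exact hI.v4
    · exact fun _ => hI.v5
    · exact fun _ => hv6
    · intro _
      show FarF G f i1 i4 i2 (K.lamIK (K.nl code 0 1)) 0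
      rw [← m01, hK.2.1]
      exact hI.far14
    · intro _ _ _
      show FarF G f i2 i4 i1 (K.farL 3 code (0 + 1)) 0
      rw [farL_eq hK, ← m01, ← m04, ← m23, ← m14, ← m24]
      exact hI.far24 n12
    · intro h; exact absurd h (by decide)
  · have key := main _ _ (Em.ifb' (by
      rw [← Bool.not_eq_true, ands_true, beq_true, beq_true]
      exact hz) Em.emit)
    refine ⟨_, hl key.1, ![i1, i2, i3, i4, i5, i1], ?_⟩
    unfold ConfX
    rw [code_mod (by norm_num), code_div (by norm_num)]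
    have hg := fun i => pk_get i _ key.2
    obtain ⟨hinj, hnum⟩ := conf_ij (n := 5) hL (f := f) (σ := ![i1, i2, i3, i4, i5, i1])
      (code := K.pk [nn G (f i1) (f i2), 0, 0, 0, 0, nn G (f i3) (f i4), nn G (f i1) (f i5),
        nn G (f i2) (f i5), nn G (f i3) (f i5), nn G (f i4) (f i5)]) (by
      intro i j hij hj
      fin_cases i <;> fin_cases j <;> first
        | exact absurd hij (by decide)
        | exact absurd hj (by decide)
        | exact ⟨d12, (hg 0).symm⟩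
        | exact ⟨d13, n13.trans (hg 1).symm⟩
        | exact ⟨d23, n23.trans (hg 2).symm⟩
        | exact ⟨d14, n14.trans (hg 3).symm⟩
        | exact ⟨d24, n24.trans (hg 4).symm⟩
        | exact ⟨d34, (hg 5).symm⟩
        | exact ⟨d15, (hg 6).symm⟩
        | exact ⟨d25, (hg 7).symm⟩
        | exact ⟨d35, (hg 8).symm⟩
        | exact ⟨d45, (hg 9).symm⟩)
    have m01 := hnum 0 1 (by decide) (by decide) (by decide)
    have m23 := hnum 2 3 (by decide) (by decide) (by decide)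
    have m04 := hnum 0 4 (by decide) (by decide) (by decide)
    have m14 := hnum 1 4 (by decide) (by decide) (by decide)
    have m24 := hnum 2 4 (by decide) (by decide) (by decide)
    obtain ⟨code, hcode⟩ : ∃ code, code = K.pk [nn G (f i1) (f i2), 0, 0, 0, 0,
        nn G (f i3) (f i4), nn G (f i1) (f i5), nn G (f i2) (f i5), nn G (f i3) (f i5),
        nn G (f i4) (f i5)] := ⟨_, rfl⟩
    rw [← hcode] at hnum m01 m23 m04 m14 m24 ⊢
    replace m01 : nn G (f i1) (f i2) = K.nl code 0 1 := m01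
    replace m23 : nn G (f i3) (f i4) = K.nl code 2 3 := m23
    replace m04 : nn G (f i1) (f i5) = K.nl code 0 4 := m04
    replace m14 : nn G (f i2) (f i5) = K.nl code 1 4 := m14
    replace m24 : nn G (f i3) (f i5) = K.nl code 2 4 := m24
    constructor
    · exact (by decide : 4 ≤ K.sel 1 4 5 5 6)
    · exact (by decide : K.sel 1 4 5 5 6 ≤ 6)
    · intro h; exact absurd h (by decide)
    · exact hinj
    · exact hnum
    · exact hI.v3
    · exact hI.v4
    · exact fun _ => hI.v5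
    · intro h; exact absurd h (by decide)
    · intro _
      show FarF G f i1 i4 i2 (K.lamIK (K.nl code 0 1)) 0
      rw [← m01, hK.2.1]
      exact hI.far14
    · intro _ _ h0
      show FarF G f i2 i4 i1 (K.farL 1 code (0 + 1)) 0
      rw [farL_eq hK, ← m01, ← m04, ← m23, ← m14, ← m24]
      exact hI.far24 (m01.trans h0)
    · intro _
      show FarF G f i2 i3 i1 (K.farL 1 code (1 + 1)) (K.muIK (K.nl code 2 3))
      rw [farL_eq hK, ← m01, ← m04, ← m23, ← m14, ← m24, hK.2.2.1]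
      exact hI.far23

end Pool.Agent.Refl.H48.Enu
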