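import Pool.Agent.Helper23_Refl.StmtC2

/-!
# Module PACK: packed vectors
-/

namespace Pool.Agent.Refl.H48

open Pool.Agent.Refl Matrix

section basics

variable {c : K.Ctx} {D0 : ℕ}

theorem pack_Qpos (h : CtxB c D0) : 0 < c.Q := by
  rw [h.Q]
  have := h.D
  positivity

theorem pack_B3 (h : CtxB c D0) : c.B3 = c.B ^ 3 := by rw [h.B3, h.B2]; ring

theorem pack_B2 (h : CtxB c D0) : c.B2 = c.B ^ 2 := by rw [h.B2]; ring

theorem pack_QB (h : CtxB c D0) : c.Q ∣ c.B := ⟨c.Q * 2 ^ 80, by rw [h.B]; ring⟩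

theorem pack_Bpos (h : CtxB c D0) : 0 < c.B := by
  rw [h.B]
  have := pack_Qpos h
  positivity

/-- the digits of a packed vector -/
theorem pack_digits {x : ℕ} {v : Z4} (hx : Pd c x v) :
    ∃ a : Fin 4 → ℕ, (∀ j, a j ≤ 2 ^ 70 * c.Q) ∧ (∀ j, (c.Q : ℤ) ∣ (a j : ℤ) - v j) ∧
      x = a 0 + a 1 * c.B + a 2 * c.B ^ 2 + a 3 * c.B ^ 3 := by
  obtain ⟨t, ht, hb⟩ := hx
  refine ⟨fun j => (v j + t * c.Q).toNat, ?_, ?_, ?_⟩
  · intro j
    have := (hb j).2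
    zify
    rw [Int.toNat_of_nonneg (hb j).1]
    exact this
  · intro j
    show (c.Q : ℤ) ∣ (((v j + t * c.Q).toNat : ℕ) : ℤ) - v j
    rw [Int.toNat_of_nonneg (hb j).1]
    exact ⟨t, by ring⟩
  · unfold Pg at ht
    zify
    rw [ht, Int.toNat_of_nonneg (hb 0).1, Int.toNat_of_nonneg (hb 1).1,
      Int.toNat_of_nonneg (hb 2).1, Int.toNat_of_nonneg (hb 3).1, Fin.sum_univ_four]
    simp only [Fin.val_zero, Fin.val_one, Fin.val_two, pow_zero, pow_one, mul_one]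
    have h3 : ((3 : Fin 4) : ℕ) = 3 := rfl
    rw [h3]

theorem pack_lt (h : CtxB c D0) {n : ℕ} (hn : n ≤ 2 ^ 70 * c.Q) : n < c.B := by
  have hQ := pack_Qpos h
  rw [h.B]
  calc n ≤ 2 ^ 70 * c.Q := hn
    _ < c.Q * c.Q * 2 ^ 80 := by nlinarith

theorem pack_mod {B p a r : ℕ} (hp : p ∣ B) : (a + B * r) % p = a % p := by
  obtain ⟨k, rfl⟩ := hp
  rw [mul_assoc, Nat.add_mul_mod_self_left]

theorem pack_dg0 {B p a0 a1 a2 a3 : ℕ} (hp : p ∣ B) :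
    (a0 + a1 * B + a2 * B ^ 2 + a3 * B ^ 3) % p = a0 % p := by
  have : a0 + a1 * B + a2 * B ^ 2 + a3 * B ^ 3 = a0 + B * (a1 + a2 * B + a3 * B ^ 2) := by ring
  rw [this, pack_mod hp]

theorem pack_div1 {B a0 a1 a2 a3 : ℕ} (hB : 0 < B) (h0 : a0 < B) :
    (a0 + a1 * B + a2 * B ^ 2 + a3 * B ^ 3) / B = a1 + B * (a2 + a3 * B) := by
  have : a0 + a1 * B + a2 * B ^ 2 + a3 * B ^ 3 = a0 + B * (a1 + B * (a2 + a3 * B)) := by ring
  rw [this, Nat.add_mul_div_left _ _ hB, Nat.div_eq_of_lt h0, zero_add]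

theorem pack_div2 {B a0 a1 a2 a3 : ℕ} (hB : 0 < B) (h0 : a0 < B) (h1 : a1 < B) :
    (a0 + a1 * B + a2 * B ^ 2 + a3 * B ^ 3) / B ^ 2 = a2 + B * a3 := by
  have : B ^ 2 = B * B := by ring
  rw [this, ← Nat.div_div_eq_div_mul, ← this, pack_div1 hB h0, Nat.add_mul_div_left _ _ hB,
    Nat.div_eq_of_lt h1, zero_add, mul_comm a3 B]

theorem pack_div3 {B a0 a1 a2 a3 : ℕ} (hB : 0 < B) (h0 : a0 < B) (h1 : a1 < B) (h2 : a2 < B) :
    (a0 + a1 * B + a2 * B ^ 2 + a3 * B ^ 3) / B ^ 3 = a3 := by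
  have : B ^ 3 = B ^ 2 * B := by ring
  rw [this, ← Nat.div_div_eq_div_mul, ← this, pack_div2 hB h0 h1, Nat.add_mul_div_left _ _ hB,
    Nat.div_eq_of_lt h2, zero_add]

theorem pack_emod {Q p : ℕ} (hp : p ∣ Q) {a : ℕ} {v : ℤ} (h : (Q : ℤ) ∣ (a : ℤ) - v) :
    ((a % p : ℕ) : ℤ) = v % p := by
  rw [Int.natCast_mod]
  exact Int.emod_eq_emod_iff_emod_sub_eq_zero.2
    (Int.emod_eq_zero_of_dvd ((Int.natCast_dvd_natCast.2 hp).trans h))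

theorem ands_eq (a b : Bool) : K.ands a b = (a && b) := by cases a <;> rfl

theorem beq_iff (a b : ℕ) : Nat.beq a b = true ↔ a = b := by simp

theorem pack1 : Pack1Stmt := by
  intro c D0 x p v h hx hp hpQ
  obtain ⟨a, ha, hv, rfl⟩ := pack_digits hx
  have hB := pack_Bpos h
  have hpB : p ∣ c.B := hpQ.trans (pack_QB h)
  have hlt : ∀ j, a j < c.B := fun j => pack_lt h (ha j)
  have d0 : (a 0 + a 1 * c.B + a 2 * c.B ^ 2 + a 3 * c.B ^ 3) % p = a 0 % p := pack_dg0 hpB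
  have d1 : (a 0 + a 1 * c.B + a 2 * c.B ^ 2 + a 3 * c.B ^ 3) / c.B % p = a 1 % p := by
    rw [pack_div1 hB (hlt 0), pack_mod hpB]
  have d2 : (a 0 + a 1 * c.B + a 2 * c.B ^ 2 + a 3 * c.B ^ 3) / c.B2 % p = a 2 % p := by
    rw [pack_B2 h, pack_div2 hB (hlt 0) (hlt 1), pack_mod hpB]
  have d3 : (a 0 + a 1 * c.B + a 2 * c.B ^ 2 + a 3 * c.B ^ 3) / c.B3 % p = a 3 % p := by
    rw [pack_B3 h, pack_div3 hB (hlt 0) (hlt 1) (hlt 2)]
  constructor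
  · unfold K.z4
    simp only [ands_eq, Bool.and_eq_true, beq_iff]
    have e0 : Nat.mod (a 0 + a 1 * c.B + a 2 * c.B ^ 2 + a 3 * c.B ^ 3) p = a 0 % p := d0
    have e1 : Nat.mod (Nat.div (a 0 + a 1 * c.B + a 2 * c.B ^ 2 + a 3 * c.B ^ 3) c.B) p =
      a 1 % p := d1
    have e2 : Nat.mod (Nat.div (a 0 + a 1 * c.B + a 2 * c.B ^ 2 + a 3 * c.B ^ 3) c.B2) p =
      a 2 % p := d2
    have e3 : Nat.mod (Nat.div (a 0 + a 1 * c.B + a 2 * c.B ^ 2 + a 3 * c.B ^ 3) c.B3) p =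
      a 3 % p := d3
    rw [e0, e1, e2, e3]
    have key : ∀ j, a j % p = 0 ↔ (p : ℤ) ∣ v j := by
      intro j
      have := pack_emod hpQ (hv j)
      constructor
      · intro h0
        rw [h0] at this
        exact Int.dvd_of_emod_eq_zero this.symm
      · intro h0
        rw [Int.emod_eq_zero_of_dvd h0] at this
        exact_mod_cast this
    rw [key, key, key, key]
    constructor
    · rintro ⟨h0, h1, h2, h3⟩ j
      fin_cases j <;> assumption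
    · intro hh
      exact ⟨hh 0, hh 1, hh 2, hh 3⟩
  · intro i
    have key : K.dg c (a 0 + a 1 * c.B + a 2 * c.B ^ 2 + a 3 * c.B ^ 3) i p = a i % p := by
      fin_cases i
      · show Nat.mod (Nat.div (a 0 + a 1 * c.B + a 2 * c.B ^ 2 + a 3 * c.B ^ 3) 1) p = a 0 % p
        have : Nat.div (a 0 + a 1 * c.B + a 2 * c.B ^ 2 + a 3 * c.B ^ 3) 1 =
          a 0 + a 1 * c.B + a 2 * c.B ^ 2 + a 3 * c.B ^ 3 := Nat.div_one _
        rw [this]; exact d0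
      · exact d1
      · exact d2
      · exact d3
    rw [key]
    exact pack_emod hpQ (hv i)

/-- the coefficient of `B³` in a product -/
theorem pack_conv {c : K.Ctx} {D0 : ℕ} (h : CtxB c D0) {q : ℕ} (hq : q ∣ c.Q)
    {x0 x1 x2 x3 a0 a1 a2 a3 : ℕ} (_ : x0 < c.Q) (hx1 : x1 < c.Q) (hx2 : x2 < c.Q)
    (hx3 : x3 < c.Q) (ha0 : a0 ≤ 2 ^ 70 * c.Q) (ha1 : a1 ≤ 2 ^ 70 * c.Q)
    (ha2 : a2 ≤ 2 ^ 70 * c.Q) :
    (x0 * c.B ^ 3 + x1 * c.B ^ 2 + x2 * c.B + x3) *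
      (a0 + a1 * c.B + a2 * c.B ^ 2 + a3 * c.B ^ 3) / c.B ^ 3 % q =
      (x0 * a0 + x1 * a1 + x2 * a2 + x3 * a3) % q := by
  have hB := pack_Bpos h
  have hQ := pack_Qpos h
  have hqB : q ∣ c.B := hq.trans (pack_QB h)
  have hm : ∀ {x a : ℕ}, x < c.Q → a ≤ 2 ^ 70 * c.Q → x * a ≤ 2 ^ 70 * (c.Q * c.Q) := by
    intro x a hx ha
    calc x * a ≤ c.Q * (2 ^ 70 * c.Q) := Nat.mul_le_mul hx.le ha
      _ = 2 ^ 70 * (c.Q * c.Q) := by ring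
  have hBe : c.B = 2 ^ 80 * (c.Q * c.Q) := by rw [h.B]; ring
  have hQQ : 0 < c.Q * c.Q := by positivity
  have l0 : x3 * a0 < c.B := by
    have := hm hx3 ha0
    rw [hBe]; nlinarith
  have l1 : x2 * a0 + x3 * a1 < c.B := by
    have := hm hx2 ha0
    have := hm hx3 ha1
    rw [hBe]; nlinarith
  have l2 : x1 * a0 + x2 * a1 + x3 * a2 < c.B := by
    have := hm hx1 ha0
    have := hm hx2 ha1
    have := hm hx3 ha2
    rw [hBe]; nlinarith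
  have e : (x0 * c.B ^ 3 + x1 * c.B ^ 2 + x2 * c.B + x3) *
      (a0 + a1 * c.B + a2 * c.B ^ 2 + a3 * c.B ^ 3) =
      x3 * a0 + (x2 * a0 + x3 * a1) * c.B + (x1 * a0 + x2 * a1 + x3 * a2) * c.B ^ 2 +
        ((x0 * a0 + x1 * a1 + x2 * a2 + x3 * a3) + c.B * ((x0 * a1 + x1 * a2 + x2 * a3) +
          (x0 * a2 + x1 * a3) * c.B + x0 * a3 * c.B ^ 2)) * c.B ^ 3 := by ring
  rw [e, pack_div3 hB l0 l1 l2, pack_mod hqB]

theorem pack_row {c : K.Ctx} {D0 : ℕ} {P : M4} (h : CtxP c D0 P) {v : Z4} {x q : ℕ}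
    (hx : Pd c x v) (hqQ : q ∣ c.Q) (i : Fin 4) :
    (((![c.r0, c.r1, c.r2, c.r3] i) * x / c.B3 % q : ℕ) : ℤ) = (P.mulVec v i) % q := by
  obtain ⟨a, ha, hv, rfl⟩ := pack_digits hx
  obtain ⟨y, hy, hr⟩ := h.row i
  rw [hr, pack_B3 h.toCtxB, pack_B2 h.toCtxB, pack_conv h.toCtxB hqQ (hy 0).1 (hy 1).1 (hy 2).1
    (hy 3).1 (ha 0) (ha 1) (ha 2)]
  apply pack_emod hqQ
  unfold Matrix.mulVec dotProduct
  rw [Fin.sum_univ_four]
  have key : ∀ j, (c.Q : ℤ) ∣ ((y j * a j : ℕ) : ℤ) - P i j * v j := by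
    intro j
    obtain ⟨k, hk⟩ := (hy j).2
    obtain ⟨l, hl⟩ := hv j
    refine ⟨y j * l - k * v j, ?_⟩
    push_cast
    have e1 : (a j : ℤ) = v j + c.Q * l := by linarith
    have e2 : P i j = y j + c.Q * k := by linarith
    rw [e1, e2]; ring
  have e : ((y 0 * a 0 + y 1 * a 1 + y 2 * a 2 + y 3 * a 3 : ℕ) : ℤ) -
      (P i 0 * v 0 + P i 1 * v 1 + P i 2 * v 2 + P i 3 * v 3) =
      (((y 0 * a 0 : ℕ) : ℤ) - P i 0 * v 0) + (((y 1 * a 1 : ℕ) : ℤ) - P i 1 * v 1) +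
      (((y 2 * a 2 : ℕ) : ℤ) - P i 2 * v 2) + (((y 3 * a 3 : ℕ) : ℤ) - P i 3 * v 3) := by
    push_cast; ring
  rw [e]
  exact (((key 0).add (key 1)).add (key 2)).add (key 3)

theorem pack2 : Pack2Stmt := by
  intro c D0 x y q q' P v w h hx hy hq hq' hqq hqQ
  have hQ := pack_Qpos h.toCtxB
  have hq'Q := hqq.trans hqQ
  obtain ⟨b, hb, hw, rfl⟩ := pack_digits hy
  have hqle : q ≤ c.Q := Nat.le_of_dvd hQ hqQ
  have r0 := pack_row h hx hqQ 0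
  have r1 := pack_row h hx hqQ 1
  have r2 := pack_row h hx hqQ 2
  have r3 := pack_row h hx hqQ 3
  have f0 : (![c.r0, c.r1, c.r2, c.r3] 0) = c.r0 := rfl
  have f1 : (![c.r0, c.r1, c.r2, c.r3] 1) = c.r1 := rfl
  have f2 : (![c.r0, c.r1, c.r2, c.r3] 2) = c.r2 := rfl
  have f3 : (![c.r0, c.r1, c.r2, c.r3] 3) = c.r3 := rfl
  rw [f0] at r0
  rw [f1] at r1
  rw [f2] at r2
  rw [f3] at r3
  obtain ⟨s0, hs0⟩ : ∃ s, s = c.r0 * x / c.B3 % q := ⟨_, rfl⟩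
  obtain ⟨s1, hs1⟩ : ∃ s, s = c.r1 * x / c.B3 % q := ⟨_, rfl⟩
  obtain ⟨s2, hs2⟩ : ∃ s, s = c.r2 * x / c.B3 % q := ⟨_, rfl⟩
  obtain ⟨s3, hs3⟩ : ∃ s, s = c.r3 * x / c.B3 % q := ⟨_, rfl⟩
  rw [← hs0] at r0
  rw [← hs1] at r1
  rw [← hs2] at r2
  rw [← hs3] at r3
  have hz : K.zr c x q = s0 * c.B ^ 3 + s1 * c.B ^ 2 + s2 * c.B + s3 := by
    have : K.zr c x q = ((c.r0 * x / c.B3 % q * c.B + c.r1 * x / c.B3 % q) * c.B +
      c.r2 * x / c.B3 % q) * c.B + c.r3 * x / c.B3 % q := rfl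
    rw [this, ← hs0, ← hs1, ← hs2, ← hs3]
    ring
  have hlt : ∀ n, n % q < c.Q := fun n => (Nat.mod_lt _ hq).trans_le hqle
  have hd : K.dt c (K.zr c x q) (b 0 + b 1 * c.B + b 2 * c.B ^ 2 + b 3 * c.B ^ 3) q' =
      (s0 * b 0 + s1 * b 1 + s2 * b 2 + s3 * b 3) % q' := by
    rw [hz]
    have : K.dt c (s0 * c.B ^ 3 + s1 * c.B ^ 2 + s2 * c.B + s3)
      (b 0 + b 1 * c.B + b 2 * c.B ^ 2 + b 3 * c.B ^ 3) q' =
      (s0 * c.B ^ 3 + s1 * c.B ^ 2 + s2 * c.B + s3) *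
      (b 0 + b 1 * c.B + b 2 * c.B ^ 2 + b 3 * c.B ^ 3) / c.B3 % q' := rfl
    rw [this, pack_B3 h.toCtxB]
    exact pack_conv h.toCtxB hq'Q (hs0 ▸ hlt _) (hs1 ▸ hlt _) (hs2 ▸ hlt _) (hs3 ▸ hlt _)
      (hb 0) (hb 1) (hb 2)
  rw [hd, Int.natCast_mod]
  apply Int.emod_eq_emod_iff_emod_sub_eq_zero.2
  apply Int.emod_eq_zero_of_dvd
  have key : ∀ (s : ℕ) (i : Fin 4), (s : ℤ) = (P.mulVec v i) % q →
      (q' : ℤ) ∣ ((s * b i : ℕ) : ℤ) - w i * P.mulVec v i := by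
    intro s i hs
    obtain ⟨k, hk⟩ := (Int.natCast_dvd_natCast.2 hq'Q).trans (hw i)
    have h1 : (q : ℤ) ∣ (s : ℤ) - P.mulVec v i := by
      rw [hs, Int.emod_def]
      exact ⟨-(P.mulVec v i / q), by ring⟩
    obtain ⟨l, hl⟩ := (Int.natCast_dvd_natCast.2 hqq).trans h1
    refine ⟨s * k + l * w i, ?_⟩
    push_cast
    have e1 : (b i : ℤ) = w i + q' * k := by linarith
    have e2 : P.mulVec v i = s - q' * l := by linarith
    rw [e1, e2]; ring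
  unfold dotProduct
  rw [Fin.sum_univ_four]
  have e : ((s0 * b 0 + s1 * b 1 + s2 * b 2 + s3 * b 3 : ℕ) : ℤ) -
      (w 0 * P.mulVec v 0 + w 1 * P.mulVec v 1 + w 2 * P.mulVec v 2 + w 3 * P.mulVec v 3) =
      (((s0 * b 0 : ℕ) : ℤ) - w 0 * P.mulVec v 0) + (((s1 * b 1 : ℕ) : ℤ) - w 1 * P.mulVec v 1) +
      (((s2 * b 2 : ℕ) : ℤ) - w 2 * P.mulVec v 2) +
      (((s3 * b 3 : ℕ) : ℤ) - w 3 * P.mulVec v 3) := by
    push_cast; ring
  rw [e]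
  exact (((key _ 0 r0).add (key _ 1 r1)).add (key _ 2 r2)).add (key _ 3 r3)

theorem pack_n {c : K.Ctx} {D0 : ℕ} (h : CtxB c D0) {n0 n1 n2 n3 : ℕ} {N : M4}
    (hN : PkN c n0 n1 n2 n3 N) (i : Fin 4) : ((![n0, n1, n2, n3] i : ℕ) : ℤ) - c.Om =
      ∑ j : Fin 4, N j i * (c.B : ℤ) ^ (j : ℕ) := by
  have h1 := (hN i).1
  unfold Pg at h1
  rw [h1, h.Om, pack_B3 h, pack_B2 h]
  push_cast
  rw [Fin.sum_univ_four, Fin.sum_univ_four]
  simp only [Fin.val_zero, Fin.val_one, Fin.val_two, pow_zero, pow_one, mul_one]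
  have h3 : ((3 : Fin 4) : ℕ) = 3 := rfl
  rw [h3]
  ring

theorem pack3g {c : K.Ctx} {n0 n1 n2 n3 : ℕ} {N : M4}
    (hN : PkN c n0 n1 n2 n3 N) (z0 z1 z2 z3 : ℕ) :
    Pg c (z0 * n0 + z1 * n1 + (z2 * n2 + z3 * n3)) (z0 + z1 + (z2 + z3))
      (N.mulVec ![z0, z1, z2, z3]) := by
  have h0 := (hN 0).1
  have h1 := (hN 1).1
  have h2 := (hN 2).1
  have h3 := (hN 3).1
  unfold Pg at *
  have f0 : (![n0, n1, n2, n3] 0) = n0 := rfl
  have f1 : (![n0, n1, n2, n3] 1) = n1 := rfl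
  have f2 : (![n0, n1, n2, n3] 2) = n2 := rfl
  have f3 : (![n0, n1, n2, n3] 3) = n3 := rfl
  rw [f0] at h0
  rw [f1] at h1
  rw [f2] at h2
  rw [f3] at h3
  push_cast
  rw [h0, h1, h2, h3, Finset.mul_sum, Finset.mul_sum, Finset.mul_sum, Finset.mul_sum,
    ← Finset.sum_add_distrib, ← Finset.sum_add_distrib, ← Finset.sum_add_distrib]
  apply Finset.sum_congr rfl
  intro j _
  unfold Matrix.mulVec dotProduct
  rw [Fin.sum_univ_four]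
  have g0 : (![(z0 : ℤ), z1, z2, z3] 0) = z0 := rfl
  have g1 : (![(z0 : ℤ), z1, z2, z3] 1) = z1 := rfl
  have g2 : (![(z0 : ℤ), z1, z2, z3] 2) = z2 := rfl
  have g3 : (![(z0 : ℤ), z1, z2, z3] 3) = z3 := rfl
  rw [g0, g1, g2, g3]
  push_cast
  ring

theorem pack3 : Pack3Stmt := by
  intro c D0 n0 n1 n2 n3 N h hN z0 z1 z2 z3 h0 h1 h2 h3
  have hg := pack3g hN z0 z1 z2 z3
  refine ⟨⟨z0 + z1 + (z2 + z3), hg, ?_⟩, hg⟩
  intro j
  have hQ := pack_Qpos h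
  have hQ' : (0 : ℤ) < c.Q := by exact_mod_cast hQ
  have e : (N.mulVec ![(z0 : ℤ), z1, z2, z3]) j + ((z0 + z1 + (z2 + z3) : ℕ) : ℤ) * c.Q =
      z0 * (N j 0 + c.Q) + z1 * (N j 1 + c.Q) + z2 * (N j 2 + c.Q) + z3 * (N j 3 + c.Q) := by
    unfold Matrix.mulVec dotProduct
    rw [Fin.sum_univ_four]
    have g0 : (![(z0 : ℤ), z1, z2, z3] 0) = z0 := rfl
    have g1 : (![(z0 : ℤ), z1, z2, z3] 1) = z1 := rfl
    have g2 : (![(z0 : ℤ), z1, z2, z3] 2) = z2 := rfl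
    have g3 : (![(z0 : ℤ), z1, z2, z3] 3) = z3 := rfl
    rw [g0, g1, g2, g3]
    push_cast
    ring
  rw [e]
  have key : ∀ (z : ℕ) (i : Fin 4), z < 2 ^ 64 → 0 ≤ (z : ℤ) * (N j i + c.Q) ∧
      (z : ℤ) * (N j i + c.Q) ≤ 2 ^ 65 * c.Q := by
    intro z i hz
    have h4 := abs_le.1 ((hN i).2 j)
    have h5 : 0 ≤ N j i + c.Q := by linarith [h4.1]
    have h6 : N j i + c.Q ≤ 2 * c.Q := by linarith [h4.2]
    have h7 : (z : ℤ) ≤ 2 ^ 64 := by exact_mod_cast hz.le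
    refine ⟨mul_nonneg (by positivity) h5, ?_⟩
    calc (z : ℤ) * (N j i + c.Q) ≤ 2 ^ 64 * (2 * c.Q) := mul_le_mul h7 h6 h5 (by norm_num)
      _ = 2 ^ 65 * c.Q := by ring
  have k0 := key z0 0 h0
  have k1 := key z1 1 h1
  have k2 := key z2 2 h2
  have k3 := key z3 3 h3
  constructor
  · linarith [k0.1, k1.1, k2.1, k3.1]
  · have : (4 : ℤ) * (2 ^ 65 * c.Q) ≤ 2 ^ 70 * c.Q := by nlinarith
    linarith [k0.2, k1.2, k2.2, k3.2]

theorem pack_small {B : ℕ} {d r : ℤ} (hd : |d| < B) (h : d + B * r = 0) : d = 0 ∧ r = 0 := by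
  have hdv : (B : ℤ) ∣ d := ⟨-r, by linarith⟩
  have h0 : d = 0 := Int.eq_zero_of_abs_lt_dvd hdv hd
  refine ⟨h0, ?_⟩
  rw [h0, zero_add] at h
  rcases mul_eq_zero.1 h with h | h
  · rw [h, h0, abs_zero] at hd
    exact absurd hd (lt_irrefl _)
  · exact h

theorem pack4 : Pack4Stmt := by
  intro c D0 n0 n1 n2 n3 N h hN
  constructor
  · intro t z0 z1 z2 z3
    have h0 := pack_n h hN 0
    have h1 := pack_n h hN 1
    have h2 := pack_n h hN 2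
    have h3 := pack_n h hN 3
    have f0 : (![n0, n1, n2, n3] 0) = n0 := rfl
    have f1 : (![n0, n1, n2, n3] 1) = n1 := rfl
    have f2 : (![n0, n1, n2, n3] 2) = n2 := rfl
    have f3 : (![n0, n1, n2, n3] 3) = n3 := rfl
    rw [f0] at h0
    rw [f1] at h1
    rw [f2] at h2
    rw [f3] at h3
    have eX : K.cX c.Om t z0 z1 z2 z3 n0 n1 n2 n3 =
      z0 * n0 + z1 * n1 + (z2 * n2 + z3 * n3) + c.Om * (1 + 4 * t) := rfl
    have eY : K.cY c.Om t z0 z1 z2 z3 n0 n1 n2 n3 =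
      t * (n0 + n1 + (n2 + n3)) + c.Om * (z0 + z1 + (z2 + z3)) := rfl
    rw [eX, eY]
    push_cast
    have e : ((z0 : ℤ) * n0 + z1 * n1 + (z2 * n2 + z3 * n3) + c.Om * (1 + 4 * t)) -
        (t * (n0 + n1 + (n2 + n3)) + c.Om * (z0 + z1 + (z2 + z3))) - c.Om =
        (z0 - t) * (n0 - c.Om) + (z1 - t) * (n1 - c.Om) + (z2 - t) * (n2 - c.Om) +
          (z3 - t) * (n3 - c.Om) := by ring
    rw [e, h0, h1, h2, h3, Finset.mul_sum, Finset.mul_sum, Finset.mul_sum, Finset.mul_sum,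
      ← Finset.sum_add_distrib, ← Finset.sum_add_distrib, ← Finset.sum_add_distrib]
    apply Finset.sum_congr rfl
    intro j _
    unfold Matrix.mulVec dotProduct
    rw [Fin.sum_univ_four]
    have g0 : (![(z0 : ℤ) - t, z1 - t, z2 - t, z3 - t] 0) = z0 - t := rfl
    have g1 : (![(z0 : ℤ) - t, z1 - t, z2 - t, z3 - t] 1) = z1 - t := rfl
    have g2 : (![(z0 : ℤ) - t, z1 - t, z2 - t, z3 - t] 2) = z2 - t := rfl
    have g3 : (![(z0 : ℤ) - t, z1 - t, z2 - t, z3 - t] 3) = z3 - t := rfl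
    rw [g0, g1, g2, g3]
    ring
  · intro v w hv hw he
    have hQ := pack_Qpos h
    have hQ' : (1 : ℤ) ≤ c.Q := by exact_mod_cast hQ
    have hB : (c.B : ℤ) = c.Q * c.Q * 2 ^ 80 := by rw [h.B]; push_cast; ring
    have hQ2 : (2 : ℤ) ^ 80 ≤ c.Q := by
      rw [h.Q]
      have h1 : 1 ≤ (210 * D0) ^ 8 := Nat.one_le_pow _ _ (by have := h.D; positivity)
      push_cast
      have h2 : (1 : ℤ) ≤ (210 * (D0 : ℤ)) ^ 8 := by exact_mod_cast h1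
      nlinarith
    have hd : ∀ j, |v j - w j| < c.B := by
      intro j
      have h1 : |v j - w j| ≤ 2 ^ 101 * c.Q := by
        calc |v j - w j| ≤ |v j| + |w j| := abs_sub _ _
          _ ≤ 2 ^ 100 * c.Q + 2 ^ 100 * c.Q := add_le_add (hv j) (hw j)
          _ = 2 ^ 101 * c.Q := by ring
      refine h1.trans_lt ?_
      rw [hB]
      have h2 : (2 : ℤ) ^ 80 * 2 ^ 80 ≤ c.Q * 2 ^ 80 := mul_le_mul_of_nonneg_right hQ2 (by positivity)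
      have h3 : (2 : ℤ) ^ 101 < c.Q * 2 ^ 80 := lt_of_lt_of_le (by norm_num) h2
      nlinarith
    rw [Fin.sum_univ_four, Fin.sum_univ_four] at he
    simp only [Fin.val_zero, Fin.val_one, Fin.val_two, pow_zero, pow_one, mul_one] at he
    have h3 : ((3 : Fin 4) : ℕ) = 3 := rfl
    rw [h3] at he
    have e0 : (v 0 - w 0) + (c.B : ℤ) * ((v 1 - w 1) + (c.B : ℤ) * ((v 2 - w 2) +
      (c.B : ℤ) * (v 3 - w 3))) = 0 := by linear_combination he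
    obtain ⟨a0, e1⟩ := pack_small (hd 0) e0
    obtain ⟨a1, e2⟩ := pack_small (hd 1) e1
    obtain ⟨a2, a3⟩ := pack_small (hd 2) e2
    funext j
    fin_cases j
    · exact sub_eq_zero.1 a0
    · exact sub_eq_zero.1 a1
    · exact sub_eq_zero.1 a2
    · exact sub_eq_zero.1 a3

end basics

end Pool.Agent.Refl.H48
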