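import Pool.Agent.Helper23_Refl.StmtC2

/-!
# Module PRIME: the bit mask of the primes below 4096
-/

namespace Pool.Agent.Refl.H48

open Pool.Agent.Refl

theorem ands_eqP (a b : Bool) : K.ands a b = (a && b) := by cases a <;> rfl

/-- trial division by the numbers from `2` to `n + 1` -/
def td (p n : ℕ) : Bool :=
  Nat.rec true (fun d b => Bool.rec false b
    (Bool.rec (Nat.blt 0 (Nat.mod p (d + 2))) true (Nat.ble p (d + 2)))) n

theorem td_spec (p n : ℕ) (h : td p n = true) (d : ℕ) (h2 : 2 ≤ d) (hn : d < n + 2) (hp : d < p) :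
    p % d ≠ 0 := by
  induction n with
  | zero => omega
  | succ n ih =>
    have h' : (Bool.rec false (td p n) (Bool.rec (Nat.blt 0 (Nat.mod p (n + 2))) true
      (Nat.ble p (n + 2))) : Bool) = true := h
    cases hb : Nat.ble p (n + 2) with
    | false =>
      rw [hb] at h'
      have h3 : (Bool.rec false (td p n) (Nat.blt 0 (Nat.mod p (n + 2))) : Bool) = true := h'
      cases hc : Nat.blt 0 (Nat.mod p (n + 2)) with
      | false => rw [hc] at h3; exact absurd h3 Bool.false_ne_true
      | true =>
        rw [hc] at h3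
        by_cases hd : d = n + 2
        · subst hd
          have : Nat.blt 0 (p % (n + 2)) = true := hc
          have h4 : 0 < p % (n + 2) := by simpa using this
          omega
        · exact ih h3 (by omega)
    | true =>
      rw [hb] at h'
      have h3 : p ≤ n + 2 := by simpa using hb
      exact ih h' (by omega)

/-- the number `p` passes the trial division, if it has a bit in the mask -/
def tdOne (p : ℕ) : Bool :=
  Bool.rec true (Bool.rec false (td p 62) (Nat.ble 2 p))
      (Nat.beq (Nat.mod (Nat.shiftRight K.pmask p) 2) 1)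

theorem tdOne_spec (p : ℕ) (h : tdOne p = true)
    (hb : Nat.beq (Nat.mod (Nat.shiftRight K.pmask p) 2) 1 = true) : 2 ≤ p ∧ td p 62 = true := by
  unfold tdOne at h
  rw [hb] at h
  have h3 : (Bool.rec false (td p 62) (Nat.ble 2 p) : Bool) = true := h
  cases h4 : Nat.ble 2 p with
  | false => rw [h4] at h3; exact absurd h3 Bool.false_ne_true
  | true =>
    rw [h4] at h3
    exact ⟨by simpa using h4, h3⟩

/-- the numbers from `a` to `a + 2 ^ k - 1` pass -/
def tdAll (k : ℕ) : ℕ → Bool :=
  Nat.rec (fun a => tdOne a) (fun m ih a => Bool.rec false (ih (Nat.add a (Nat.pow 2 m))) (ih a)) k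

theorem tdAll_spec (k a : ℕ) (h : tdAll k a = true) (p : ℕ) (hp : a ≤ p) (hp' : p < a + 2 ^ k) :
    tdOne p = true := by
  induction k generalizing a with
  | zero =>
    have : p = a := by simp at hp'; omega
    rw [this]; exact h
  | succ m ih =>
    have h' : (Bool.rec false (tdAll m (a + 2 ^ m)) (tdAll m a) : Bool) = true := h
    cases h1 : tdAll m a with
    | false => rw [h1] at h'; exact absurd h' Bool.false_ne_true
    | true =>
      rw [h1] at h'
      have h2 : tdAll m (a + 2 ^ m) = true := h'
      rw [pow_succ] at hp'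
      by_cases hc : p < a + 2 ^ m
      · exact ih a h1 hp hc
      · exact ih _ h2 (by omega) (by omega)

theorem tdAll_true : tdAll 12 0 = true := by decide +kernel

theorem prime : PrimeStmt := by
  intro p hp
  unfold K.isPrime at hp
  rw [ands_eqP, Bool.and_eq_true] at hp
  have h1 : p < 4096 := by simpa using hp.1
  refine ⟨?_, h1⟩
  obtain ⟨h3, h4'⟩ := tdOne_spec p (tdAll_spec 12 0 tdAll_true p (Nat.zero_le _)
    (by norm_num; exact h1)) hp.2
  have h4 := td_spec p 62 h4'
  by_contra hcon
  have h5 : p.minFac ∣ p := Nat.minFac_dvd p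
  have h6 : p.minFac ^ 2 ≤ p := Nat.minFac_sq_le_self (by omega) hcon
  have h7 : p.minFac < 64 := by nlinarith
  have h8 : 2 ≤ p.minFac := (Nat.minFac_prime (by omega)).two_le
  have h9 : p.minFac < p := by nlinarith
  exact h4 _ h8 h7 h9 (Nat.mod_eq_zero_of_dvd h5)

end Pool.Agent.Refl.H48
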