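import Pool.Agent.Helper18_Refl.Start
import Pool.Agent.Helper23_Refl.StmtC4

/-!
Squad REFL (MP_c70e36_gt): module START2, a locally exact vertex is a vertex of a chamber
(version with the weaker third hypothesis; the proof follows module START).
-/

namespace Pool.Agent.Refl.H48

open Matrix Set Pool.Agent.Refl.H18

/-- START2 -/
theorem start2 (hcham : ChamStmt) (hgen : GenStmt) (hdvd : RootDvdStmt) (hfin : FinVecStmt) :
    Start2Stmt := by
  intro G hG hR a b c ha hb hc hab hac hbc hg2 hg3 H1 H2
  classical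
  have hdet := hG.det_neg
  set V0 : Z4 := vv G a b c with hV0
  have hVx : ∀ x : Z4, bz G V0 x = G.det * d4 a b c x := fun x => bz_vv hG a b c x
  have hVVz : bz G V0 V0 < 0 := vv_neg hG hg3
  set V : R4 := up V0 with hVdef
  have hVV : br G V V < 0 := by rw [hVdef, br_up]; exact_mod_cast hVVz
  have hVup : ∀ x : Z4, br G V (up x) = ((G.det * d4 a b c x : ℤ) : ℝ) := by
    intro x; rw [hVdef, br_up, hVx]
  have hVa : bz G V0 a = 0 := by rw [hVx, d4_a, mul_zero]
  have hVb : bz G V0 b = 0 := by rw [hVx, d4_b, mul_zero]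
  have hVc : bz G V0 c = 0 := by rw [hVx, d4_c, mul_zero]
  have hba : bz G b a = bz G a b := hG.zcomm _ _
  have hca : bz G c a = bz G a c := hG.zcomm _ _
  have hcb : bz G c b = bz G b c := hG.zcomm _ _
  have hg2e : g2 G a b = bz G a a * bz G b b - bz G a b ^ 2 := rfl
  -- projection data
  have proj : ∀ r : Z4, ∃ α β : ℤ, bz G (g2 G a b • r - α • a - β • b) a = 0 ∧
      bz G (g2 G a b • r - α • a - β • b) b = 0 ∧
      α = bz G r a * bz G b b - bz G r b * bz G a b ∧
      β = bz G r b * bz G a a - bz G r a * bz G a b := by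
    intro r
    refine ⟨_, _, ?_, ?_, rfl, rfl⟩
    · rw [bz_sub_left, bz_sub_left, bz_smul_left, bz_smul_left, bz_smul_left, hba, hg2e]; ring
    · rw [bz_sub_left, bz_sub_left, bz_smul_left, bz_smul_left, bz_smul_left, hg2e]; ring
  obtain ⟨αc, βc, hpa, hpb, hαc, hβc⟩ := proj c
  set W0 : Z4 := -(g2 G a b • c - αc • a - βc • b) with hW0
  have hWa : bz G W0 a = 0 := by rw [hW0, bz_neg_left, hpa, neg_zero]
  have hWb : bz G W0 b = 0 := by rw [hW0, bz_neg_left, hpb, neg_zero]
  have hWc : bz G W0 c = - g3 G a b c c := by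
    rw [hW0, bz_neg_left, bz_sub_left, bz_sub_left, bz_smul_left, bz_smul_left, bz_smul_left,
      hαc, hβc, hg2e, hca, hcb]
    simp only [g3, Matrix.det_fin_three, Matrix.of_apply, Matrix.cons_val', Matrix.cons_val_zero,
      Matrix.cons_val_one, Matrix.cons_val, Matrix.cons_val_fin_one]
    ring
  set U0 : Z4 := -((bz G b b - bz G a b) • a + (bz G a a - bz G a b) • b) with hU0
  have hUa : bz G U0 a = - g2 G a b := by
    rw [hU0, bz_neg_left, bz_add_left, bz_smul_left, bz_smul_left, hba, hg2e]; ring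
  have hUb : bz G U0 b = - g2 G a b := by
    rw [hU0, bz_neg_left, bz_add_left, bz_smul_left, bz_smul_left, hg2e]; ring
  have hspan : ∀ r : Z4, IsRoot G r → br G V (up r) = 0 → br G (up W0) (up r) = 0 →
      ∃ D α β : ℤ, 0 < D ∧ D • r = α • a + β • b := by
    intro r _ hVr hWr
    have hVr' : bz G V0 r = 0 := by rw [hVdef, br_up] at hVr; exact_mod_cast hVr
    have hWr' : bz G W0 r = 0 := by rw [br_up] at hWr; exact_mod_cast hWr
    obtain ⟨α, β, h1, h2, -, -⟩ := proj r
    refine ⟨g2 G a b, α, β, hg2, ?_⟩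
    set z : Z4 := g2 G a b • r - α • a - β • b with hz
    have hzW : bz G W0 z = 0 := by
      rw [hz, bz_sub_right, bz_sub_right, bz_smul_right, bz_smul_right, bz_smul_right, hWr', hWa,
        hWb]; ring
    have hzV : bz G V0 z = 0 := by
      rw [hz, bz_sub_right, bz_sub_right, bz_smul_right, bz_smul_right, bz_smul_right, hVr', hVa,
        hVb]; ring
    have hzc : bz G z c = 0 := by
      have h3 : bz G z W0 = 0 := by rw [hG.zcomm]; exact hzW
      rw [hW0, bz_neg_right, bz_sub_right, bz_sub_right, bz_smul_right, bz_smul_right,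
        bz_smul_right, h1, h2] at h3
      have h4 : g2 G a b * bz G z c = 0 := by linarith
      rcases mul_eq_zero.1 h4 with h | h
      · omega
      · exact h
    have hzd : d4 a b c z = 0 := by
      rw [hVx] at hzV
      rcases mul_eq_zero.1 hzV with h | h
      · omega
      · exact h
    have hz0 := eq_zero_of_orth hG hg3 h1 h2 hzc hzd
    have h5 : g2 G a b • r - α • a - β • b = 0 := hz0
    rw [sub_sub, sub_eq_zero] at h5
    exact h5
  have H1' : ∀ r : Z4, IsRoot G r → ∀ D α β : ℤ, 0 < D → D • r = α • b + β • a →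
      (0 ≤ α ∧ 0 ≤ β) ∨ (α ≤ 0 ∧ β ≤ 0) := by
    intro r hr D α β hD h
    rcases H1 r hr D β α hD (by rw [h, add_comm]) with h | h
    · exact Or.inl ⟨h.2, h.1⟩
    · exact Or.inr ⟨h.2, h.1⟩
  -- local data
  obtain ⟨δ0, hδ0, hstab⟩ := stab hG hdvd hfin hVV
  -- roots vanishing at V
  set N : Set Z4 := {r : Z4 | IsRoot G r ∧ br G V (up r) = 0} with hN
  have hNfin : N.Finite := by
    refine (hfin G hG V hVV (max (2 * |(G.det : ℝ)|) 0)).subset ?_
    rintro r ⟨hr, hr0⟩
    refine ⟨?_, ?_⟩
    · have h1 := root_bdd hG hdvd hr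
      have h2 : (bz G r r : ℝ) ≤ 2 * |(G.det : ℝ)| := by
        have : ((bz G r r : ℤ) : ℝ) ≤ ((2 * |G.det| : ℤ) : ℝ) := by exact_mod_cast h1
        simpa using this
      exact h2.trans (le_max_left _ _)
    · rw [hr0, abs_zero]; exact le_max_right _ _
  -- delta
  obtain ⟨δ, hδ, hδN⟩ : ∃ δ : ℝ, 0 < δ ∧ ∀ r ∈ N, bz G W0 r < 0 →
      (bz G W0 r : ℝ) + δ * bz G U0 r < 0 := by
    obtain ⟨M, hM⟩ := (hNfin.image (fun r => |(bz G U0 r : ℝ)|)).bddAbove
    refine ⟨1 / (2 * (|M| + 1)), by positivity, fun r hr hW => ?_⟩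
    have h1 : |(bz G U0 r : ℝ)| ≤ M := hM ⟨r, hr, rfl⟩
    have h2 : (bz G U0 r : ℝ) ≤ |M| + 1 := by
      have := le_abs_self (bz G U0 r : ℝ)
      have := le_abs_self M
      linarith
    have h3 : (bz G W0 r : ℝ) ≤ -1 := by
      have : bz G W0 r ≤ -1 := by omega
      exact_mod_cast this
    have h4 : 0 < |M| + 1 := by positivity
    have h5 : 1 / (2 * (|M| + 1)) * (bz G U0 r : ℝ) ≤ 1 / 2 := by
      calc 1 / (2 * (|M| + 1)) * (bz G U0 r : ℝ) ≤ 1 / (2 * (|M| + 1)) * (|M| + 1) :=
            mul_le_mul_of_nonneg_left h2 (by positivity)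
        _ = 1 / 2 := by field_simp
    linarith
  -- the open set of good base points
  set P : Set R4 := {x | (∀ i, |x i - V i| < δ0) ∧ (∀ r ∈ N, bz G W0 r < 0 → br G x (up r) < 0) ∧
    br G x (up a) < 0 ∧ br G x (up b) < 0 ∧ br G x x < 0} with hP
  have hPopen : IsOpen P := by
    have h1 : IsOpen {x : R4 | ∀ i, |x i - V i| < δ0} := by
      have : {x : R4 | ∀ i, |x i - V i| < δ0} = ⋂ i, {x : R4 | |x i - V i| < δ0} := by
        ext x; simp
      rw [this]
      refine isOpen_iInter_of_finite fun i => ?_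
      exact isOpen_lt (by fun_prop) continuous_const
    have h2 : IsOpen {x : R4 | ∀ r ∈ N, bz G W0 r < 0 → br G x (up r) < 0} := by
      have : {x : R4 | ∀ r ∈ N, bz G W0 r < 0 → br G x (up r) < 0} =
          ⋂ r ∈ N, {x : R4 | bz G W0 r < 0 → br G x (up r) < 0} := by
        ext x; simp
      rw [this]
      refine hNfin.isOpen_biInter fun r _ => ?_
      by_cases hr : bz G W0 r < 0
      · have : {x : R4 | bz G W0 r < 0 → br G x (up r) < 0} = {x : R4 | br G x (up r) < 0} := by
          ext x; simp [hr]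
        rw [this]
        exact isOpen_lt (br_continuous_left G _) continuous_const
      · have : {x : R4 | bz G W0 r < 0 → br G x (up r) < 0} = univ := by
          ext x; simp [hr]
        rw [this]
        exact isOpen_univ
    have h3 : IsOpen {x : R4 | br G x (up a) < 0} :=
      isOpen_lt (br_continuous_left G _) continuous_const
    have h4 : IsOpen {x : R4 | br G x (up b) < 0} :=
      isOpen_lt (br_continuous_left G _) continuous_const
    have h5 : IsOpen {x : R4 | br G x x < 0} :=
      isOpen_lt (br_continuous_diag G) continuous_const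
    exact h1.inter (h2.inter (h3.inter (h4.inter h5)))
  obtain ⟨x0, hx0⟩ : P.Nonempty := by
    -- x0 = V + t (W0 + δ U0), t small
    set Y : R4 := up W0 + δ • up U0 with hY
    have hsmall : ∀ᶠ t : ℝ in nhdsWithin 0 (Ioi 0), (∀ i, |(V + t • Y) i - V i| < δ0) ∧
        br G (V + t • Y) (V + t • Y) < 0 := by
      have hcont : Continuous fun t : ℝ => V + t • Y := by fun_prop
      have h0 : V + (0 : ℝ) • Y = V := by simp
      have hopen : IsOpen {x : R4 | (∀ i, |x i - V i| < δ0) ∧ br G x x < 0} := by
        have h1 : IsOpen {x : R4 | ∀ i, |x i - V i| < δ0} := by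
          have : {x : R4 | ∀ i, |x i - V i| < δ0} = ⋂ i, {x : R4 | |x i - V i| < δ0} := by
            ext x; simp
          rw [this]
          refine isOpen_iInter_of_finite fun i => ?_
          exact isOpen_lt (by fun_prop) continuous_const
        exact h1.inter (isOpen_lt (br_continuous_diag G) continuous_const)
      have hmem : V + (0 : ℝ) • Y ∈ {x : R4 | (∀ i, |x i - V i| < δ0) ∧ br G x x < 0} := by
        rw [h0]
        exact ⟨fun i => by simpa using hδ0, hVV⟩
      exact nhdsWithin_le_nhds ((hcont.tendsto 0).eventually (hopen.mem_nhds hmem))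
    obtain ⟨t, ⟨ht1, ht2⟩, ht⟩ := (hsmall.and self_mem_nhdsWithin).exists
    have ht0 : 0 < t := ht
    have hbr : ∀ r : Z4, br G (V + t • Y) (up r) =
        (bz G V0 r : ℝ) + t * ((bz G W0 r : ℝ) + δ * bz G U0 r) := by
      intro r
      rw [br_add_left, br_smul_left, hY, br_add_left, br_smul_left, hVdef, br_up, br_up, br_up]
    refine ⟨V + t • Y, ht1, fun r hr hW => ?_, ?_, ?_, ht2⟩
    · rw [hbr]
      have h1 : (bz G V0 r : ℝ) = 0 := by
        have := hr.2
        rwa [hVdef, br_up] at this
      rw [h1, zero_add]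
      exact mul_neg_of_pos_of_neg ht0 (hδN r hr hW)
    · rw [hbr, hVa, hWa, hUa]
      have : (0 : ℝ) < ((g2 G a b : ℤ) : ℝ) := by exact_mod_cast hg2
      push_cast
      have h2 : 0 < t * (δ * ((g2 G a b : ℤ) : ℝ)) := by positivity
      linarith
    · rw [hbr, hVb, hWb, hUb]
      have : (0 : ℝ) < ((g2 G a b : ℤ) : ℝ) := by exact_mod_cast hg2
      push_cast
      have h2 : 0 < t * (δ * ((g2 G a b : ℤ) : ℝ)) := by positivity
      linarith
  obtain ⟨ρ, hρ, hρP⟩ := Metric.isOpen_iff.1 hPopen x0 hx0
  obtain ⟨O, hO1, hO2, hO3⟩ := hgen G hG x0 (ρ / 2) hx0.2.2.2.2 (by positivity)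
  have hOP : O ∈ P := by
    apply hρP
    rw [mem_ball_iff_norm]
    refine lt_of_le_of_lt ((pi_norm_le_iff_of_nonneg (by positivity : (0 : ℝ) ≤ ρ / 2)).2
      fun i => (hO1 i).le) (half_lt_self hρ)
  obtain ⟨hOV, hON, hOa, hOb, hOO⟩ := hOP
  obtain ⟨n, e, hC⟩ := hcham G hG hR O hO2 hO3
  have hVm : ∀ m, br G V (up (e m)) ≤ 0 := by
    intro m
    by_contra hcon
    push Not at hcon
    have h1 := hstab O (fun i => (hOV i).le) (-e m) (hC.root m).neg (by
      rw [up_neg, br_neg_right]; linarith)
    rw [up_neg, br_neg_right] at h1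
    have h2 := hC.neg m
    linarith
  have hWm : ∀ m, br G V (up (e m)) = 0 → br G (up W0) (up (e m)) ≤ 0 := by
    intro m hm
    by_contra hcon
    push Not at hcon
    have h0 : 0 < bz G W0 (e m) := by rw [br_up] at hcon; exact_mod_cast hcon
    have h1 := hON (-e m) ⟨(hC.root m).neg, by rw [up_neg, br_neg_right, hm, neg_zero]⟩
      (by rw [bz_neg_right]; omega)
    rw [up_neg, br_neg_right] at h1
    have h2 := hC.neg m
    linarith
  have hVa' : br G V (up a) = 0 := by rw [hVdef, br_up, hVa]; simp
  have hVb' : br G V (up b) = 0 := by rw [hVdef, br_up, hVb]; simp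
  have hVc' : br G V (up c) = 0 := by rw [hVdef, br_up, hVc]; simp
  have hWa' : br G (up W0) (up a) = 0 := by rw [br_up, hWa]; simp
  have hWb' : br G (up W0) (up b) = 0 := by rw [br_up, hWb]; simp
  have hOc : br G O (up c) < 0 := hON c ⟨hc, hVc'⟩ (by rw [hWc]; omega)
  obtain ⟨i, hi⟩ := edge_root hG hC ha hg2 hVa' hWa' hOa hOb hVm hWm hspan H1
  have hg2' : 0 < g2 G b a := by
    have : g2 G b a = g2 G a b := by
      rw [hg2e]
      show bz G b b * bz G a a - bz G b a ^ 2 = _
      rw [hba]; ring
    rw [this]; exact hg2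
  obtain ⟨j, hj⟩ := edge_root hG hC hb hg2' hVb' hWb' hOb hOa hVm hWm (fun r hr h1 h2 => by
    obtain ⟨D, α, β, hD, h⟩ := hspan r hr h1 h2
    exact ⟨D, β, α, hD, by rw [h, add_comm]⟩) H1'
  have hij : i ≠ j := by
    rintro rfl
    have h1 : a = b := by rw [← hi, ← hj]
    rw [← h1] at hab
    have := ha.pos
    omega
  -- the third facet
  have hOK : ∀ i, br G O (up (e i)) ≤ 0 := fun i => (hC.neg i).le
  have hKc : ∀ x : R4, (∀ i, br G x (up (e i)) ≤ 0) → br G x (up c) ≤ 0 := by
    rcases hC.sep c hc with h | h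
    · exact h
    · exact absurd (h O hOK) (not_le.2 hOc)
  obtain ⟨k, hki, hkj, hVk⟩ : ∃ k, k ≠ i ∧ k ≠ j ∧ br G V (up (e k)) = 0 := by
    obtain ⟨cc, hc0, hcc⟩ := farkas hG (fun i => up (e i)) O hC.neg (up c) hOc hKc
    by_contra hcon
    push Not at hcon
    have hcV : ∀ m, cc m ≠ 0 → br G V (up (e m)) = 0 := by
      have h1 : ∑ i, cc i * br G V (up (e i)) = 0 := by
        have h2 : br G V (up c) = ∑ i, cc i * br G V (up (e i)) := by
          rw [hcc, br_sum_right]
          exact Finset.sum_congr rfl fun i _ => br_smul_right _ _ _ _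
        rw [← h2, hVc']
      have h3 := (Finset.sum_eq_zero_iff_of_nonpos (fun i _ =>
        mul_nonpos_of_nonneg_of_nonpos (hc0 i) (hVm i))).1 h1
      intro m hm
      rcases mul_eq_zero.1 (h3 m (Finset.mem_univ m)) with h | h
      · exact absurd h hm
      · exact h
    have hsum : up c = cc i • up a + cc j • up b := by
      rw [hcc]
      rw [← Finset.sum_subset (s₁ := {i, j}) (Finset.subset_univ _), Finset.sum_pair hij, hi, hj]
      intro m _ hm
      rw [Finset.mem_insert, Finset.mem_singleton, not_or] at hm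
      by_cases h0 : cc m = 0
      · rw [h0, zero_smul]
      · exact absurd (hcV m h0) (hcon m hm.1 hm.2)
    -- W0 is orthogonal to c, contradiction
    have h1 : br G (up W0) (up c) = 0 := by
      rw [hsum, br_add_right, br_smul_right, br_smul_right, hWa', hWb']; ring
    rw [br_up, hWc] at h1
    have h2 : - g3 G a b c c = 0 := by exact_mod_cast h1
    omega
  have hfour : ∀ r1 r2 r3 r4 : Z4, br G V (up r1) = 0 → br G V (up r2) = 0 →
      br G V (up r3) = 0 → br G V (up r4) = 0 → bz G r1 r2 ≤ 0 → bz G r1 r3 ≤ 0 →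
      bz G r1 r4 ≤ 0 → bz G r2 r3 ≤ 0 → bz G r2 r4 ≤ 0 → bz G r3 r4 ≤ 0 →
      br G O (up r1) < 0 → br G O (up r2) < 0 → br G O (up r3) < 0 → br G O (up r4) < 0 →
      False := by
    intro r1 r2 r3 r4 v1 v2 v3 v4 b12 b13 b14 b23 b24 b34 o1 o2 o3 o4
    have cv : ∀ {x y : Z4}, bz G x y ≤ 0 → br G (up x) (up y) ≤ 0 := by
      intro x y h
      rw [br_up]; exact_mod_cast h
    have cv' : ∀ {x y : Z4}, bz G x y ≤ 0 → br G (up y) (up x) ≤ 0 := by
      intro x y h
      rw [hG.bcomm]; exact cv h
    refine no_four hG (O := O) hVV ![up r1, up r2, up r3, up r4] ?_ ?_ ?_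
    · intro s
      fin_cases s <;> assumption
    · intro s t hst
      fin_cases s <;> fin_cases t <;> first
        | exact absurd rfl hst
        | exact cv b12
        | exact cv b13
        | exact cv b14
        | exact cv b23
        | exact cv b24
        | exact cv b34
        | exact cv' b12
        | exact cv' b13
        | exact cv' b14
        | exact cv' b23
        | exact cv' b24
        | exact cv' b34
    · intro s
      fin_cases s <;> assumption
  have hobt : ∀ x y, x ≠ y → bz G (e x) (e y) ≤ 0 := hC.obt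
  have hij' : ∀ m, m ≠ i → m ≠ j → m ≠ k → br G V (up (e m)) ≠ 0 := by
    intro m hmi hmj hmk h0
    exact hfour (e m) (e i) (e j) (e k) h0 (by rw [hi]; exact hVa') (by rw [hj]; exact hVb')
      hVk (hobt _ _ hmi) (hobt _ _ hmj) (hobt _ _ hmk) (hobt _ _ hij)
      (hobt _ _ hki.symm) (hobt _ _ hkj.symm) (hC.neg _) (hC.neg _) (hC.neg _) (hC.neg _)
  have hkc : e k = c := by
    by_contra hne
    have hVk0 : bz G V0 (e k) = 0 := by
      rw [hVdef, br_up] at hVk
      exact_mod_cast hVk
    have h1 : bz G (e k) a ≤ 0 := by rw [← hi]; exact hobt k i hki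
    have h2 : bz G (e k) b ≤ 0 := by rw [← hj]; exact hobt k j hkj
    have hWk : bz G W0 (e k) ≤ 0 := by
      have := hWm k hVk
      rw [br_up] at this
      exact_mod_cast this
    have hWk' : bz G W0 (e k) < 0 := by
      rcases hWk.lt_or_eq with h | h
      · exact h
      exfalso
      obtain ⟨D, α, β, hD, hrel⟩ := hspan (e k) (hC.root k) hVk (by rw [br_up, h]; simp)
      rcases H1 (e k) (hC.root k) D α β hD hrel with h' | h'
      · have h3 := congrArg (bz G (e k)) hrel
        rw [bz_smul_right, bz_add_right, bz_smul_right, bz_smul_right] at h3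
        have h4 := mul_pos hD (hC.root k).pos
        have h5 := mul_nonpos_of_nonneg_of_nonpos h'.1 h1
        have h6 := mul_nonpos_of_nonneg_of_nonpos h'.2 h2
        omega
      · have h3 : (D : ℝ) * br G O (up (e k)) = α * br G O (up a) + β * br G O (up b) := by
          have h2 : up (D • e k) = up (α • a + β • b) := by rw [hrel]
          rw [up_smul, up_add, up_smul, up_smul] at h2
          have h3 := congrArg (br G O) h2
          rwa [br_smul_right, br_add_right, br_smul_right, br_smul_right] at h3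
        have h4 : (0 : ℝ) < D := by exact_mod_cast hD
        have h5 : (α : ℝ) ≤ 0 := by exact_mod_cast h'.1
        have h6 : (β : ℝ) ≤ 0 := by exact_mod_cast h'.2
        have h7 := mul_neg_of_pos_of_neg h4 (hC.neg k)
        have h8 := mul_nonneg_of_nonpos_of_nonpos h5 hOa.le
        have h9 := mul_nonneg_of_nonpos_of_nonpos h6 hOb.le
        linarith
    -- the expression of e k through a, b, c
    obtain ⟨αr, βr, hra, hrb, -, -⟩ := proj (e k)
    set r' : Z4 := g2 G a b • e k - αr • a - βr • b with hr'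
    set t : ℤ := bz G r' c with ht
    have hWr : g2 G a b * bz G W0 (e k) = - (g2 G a b * t) := by
      have e1 : g2 G a b * bz G W0 (e k) = bz G W0 r' := by
        rw [hr', bz_sub_right, bz_sub_right, bz_smul_right, bz_smul_right, bz_smul_right, hWa,
          hWb]; ring
      have e2 : bz G W0 r' = - (g2 G a b * t) := by
        rw [hG.zcomm W0 r', hW0, bz_neg_right, bz_sub_right, bz_sub_right, bz_smul_right,
          bz_smul_right, bz_smul_right, hra, hrb]; ring
      rw [e1, e2]
    have htpos : 0 < t := by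
      have e1 : g2 G a b * (bz G W0 (e k) + t) = 0 := by rw [mul_add, hWr]; ring
      rcases mul_eq_zero.1 e1 with h | h
      · omega
      · omega
    have hrel : (g3 G a b c c * g2 G a b) • e k = (g3 G a b c c * αr - t * αc) • a +
        (g3 G a b c c * βr - t * βc) • b + (t * g2 G a b) • c := by
      set z : Z4 := g3 G a b c c • r' + t • W0 with hz
      have hza : bz G z a = 0 := by
        rw [hz, bz_add_left, bz_smul_left, bz_smul_left, hra, hWa]; ring
      have hzb : bz G z b = 0 := by
        rw [hz, bz_add_left, bz_smul_left, bz_smul_left, hrb, hWb]; ring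
      have hzc : bz G z c = 0 := by
        rw [hz, bz_add_left, bz_smul_left, bz_smul_left, hWc, ← ht]; ring
      have hzV : bz G V0 z = 0 := by
        rw [hz, hr', hW0, bz_add_right, bz_smul_right, bz_smul_right, bz_sub_right, bz_sub_right,
          bz_neg_right, bz_sub_right, bz_sub_right]
        simp only [bz_smul_right, hVa, hVb, hVc, hVk0]
        ring
      have hzd : d4 a b c z = 0 := by
        rw [hVx] at hzV
        rcases mul_eq_zero.1 hzV with h | h
        · omega
        · exact h
      have hz0 : z = 0 := eq_zero_of_orth hG hg3 hza hzb hzc hzd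
      rw [hz, hr', hW0] at hz0
      have : (g3 G a b c c * g2 G a b) • e k - ((g3 G a b c c * αr - t * αc) • a +
        (g3 G a b c c * βr - t * βc) • b + (t * g2 G a b) • c) = 0 := by
        rw [← hz0]
        module
      exact sub_eq_zero.1 this
    set D : ℤ := g3 G a b c c * g2 G a b with hDdef
    set α : ℤ := g3 G a b c c * αr - t * αc with hαdef
    set β : ℤ := g3 G a b c c * βr - t * βc with hβdef
    set γ : ℤ := t * g2 G a b with hγdef
    have hD : 0 < D := mul_pos hg3 hg2
    have hγ : 0 < γ := mul_pos htpos hg2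
    rcases H2 (e k) (hC.root k) hne D α β γ hD hγ hrel h1 h2 with h3 | ⟨h3, h4⟩
    · exact hfour (e k) a b c hVk hVa' hVb' hVc' h1 h2 h3 hab hac hbc (hC.neg k) hOa hOb hOc
    -- c is a nonnegative combination of a, b, e k
    obtain ⟨cc, hc0, hcc⟩ := farkas hG (fun i => up (e i)) O hC.neg (up c) hOc hKc
    have hcV : ∀ m, cc m ≠ 0 → br G V (up (e m)) = 0 := by
      have h1 : ∑ i, cc i * br G V (up (e i)) = 0 := by
        have h2 : br G V (up c) = ∑ i, cc i * br G V (up (e i)) := by
          rw [hcc, br_sum_right]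
          exact Finset.sum_congr rfl fun i _ => br_smul_right _ _ _ _
        rw [← h2, hVc']
      have h3 := (Finset.sum_eq_zero_iff_of_nonpos (fun i _ =>
        mul_nonpos_of_nonneg_of_nonpos (hc0 i) (hVm i))).1 h1
      intro m hm
      rcases mul_eq_zero.1 (h3 m (Finset.mem_univ m)) with h | h
      · exact absurd h hm
      · exact h
    have hsum : up c = cc i • up a + cc j • up b + cc k • up (e k) := by
      rw [hcc]
      rw [← Finset.sum_subset (s₁ := {i, j, k}) (Finset.subset_univ _)]
      · rw [Finset.sum_insert, Finset.sum_pair hkj.symm, hi, hj, add_assoc]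
        rw [Finset.mem_insert, Finset.mem_singleton, not_or]
        exact ⟨hij, hki.symm⟩
      · intro m _ hm
        rw [Finset.mem_insert, Finset.mem_insert, Finset.mem_singleton, not_or, not_or] at hm
        by_cases h0 : cc m = 0
        · rw [h0, zero_smul]
        · exact absurd (hcV m h0) (hij' m hm.1 hm.2.1 hm.2.2)
    have hrelR : (D : ℝ) • up (e k) = (α : ℝ) • up a + (β : ℝ) • up b + (γ : ℝ) • up c := by
      have h2 : up (D • e k) = up (α • a + β • b + γ • c) := by rw [hrel]
      rwa [up_smul, up_add, up_add, up_smul, up_smul, up_smul] at h2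
    have hmain : ((D : ℝ) - cc k * γ) • up c =
        (cc i * D + cc k * α) • up a + (cc j * D + cc k * β) • up b := by
      have e1 : (D : ℝ) • up c = (cc i * D) • up a + (cc j * D) • up b +
          cc k • ((D : ℝ) • up (e k)) := by
        conv_lhs => rw [hsum]
        module
      rw [hrelR] at e1
      rw [sub_smul, e1]
      module
    have hWcR : br G (up W0) (up c) = - (g3 G a b c c : ℝ) := by
      rw [br_up, hWc]; push_cast; rfl
    have hg3R : (0 : ℝ) < (g3 G a b c c : ℝ) := by exact_mod_cast hg3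
    have hDR : (0 : ℝ) < (D : ℝ) := by exact_mod_cast hD
    have hγR : (0 : ℝ) < (γ : ℝ) := by exact_mod_cast hγ
    have hν : (D : ℝ) - cc k * γ = 0 := by
      have e1 := congrArg (br G (up W0)) hmain
      rw [br_add_right, br_smul_right, br_smul_right, br_smul_right, hWa', hWb', hWcR] at e1
      have e2 : ((D : ℝ) - cc k * γ) * (g3 G a b c c : ℝ) = 0 := by linarith
      rcases mul_eq_zero.1 e2 with h | h
      · exact h
      · linarith
    have hνpos : 0 < cc k := by
      rcases (hc0 k).lt_or_eq with h | h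
      · exact h
      · exfalso
        have h' : cc k = 0 := h.symm
        rw [h'] at hν
        linarith
    have hα0 : (0 : ℝ) ≤ α := by exact_mod_cast h3
    have hβ0 : (0 : ℝ) ≤ β := by exact_mod_cast h4
    have hO0 : (cc i * D + cc k * α) * br G O (up a) + (cc j * D + cc k * β) * br G O (up b) = 0 := by
      have e1 := congrArg (br G O) hmain
      rw [br_add_right, br_smul_right, br_smul_right, br_smul_right, hν, zero_mul] at e1
      exact e1.symm
    have p1 : 0 ≤ cc i * D := mul_nonneg (hc0 i) hDR.le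
    have p2 : 0 ≤ cc j * D := mul_nonneg (hc0 j) hDR.le
    have p3 : 0 ≤ cc k * α := mul_nonneg hνpos.le hα0
    have p4 : 0 ≤ cc k * β := mul_nonneg hνpos.le hβ0
    have q1 : (cc i * D + cc k * α) * br G O (up a) ≤ 0 :=
      mul_nonpos_of_nonneg_of_nonpos (by linarith) hOa.le
    have q2 : (cc j * D + cc k * β) * br G O (up b) ≤ 0 :=
      mul_nonpos_of_nonneg_of_nonpos (by linarith) hOb.le
    have q3 : (cc i * D + cc k * α) * br G O (up a) = 0 := by linarith
    have q4 : (cc j * D + cc k * β) * br G O (up b) = 0 := by linarith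
    have hαz : α = 0 := by
      rcases mul_eq_zero.1 q3 with h | h
      · have h5 : cc k * α = 0 := by linarith
        rcases mul_eq_zero.1 h5 with h | h
        · linarith
        · exact_mod_cast h
      · linarith
    have hβz : β = 0 := by
      rcases mul_eq_zero.1 q4 with h | h
      · have h5 : cc k * β = 0 := by linarith
        rcases mul_eq_zero.1 h5 with h | h
        · linarith
        · exact_mod_cast h
      · linarith
    rw [hαz, hβz, zero_smul, zero_smul, zero_add, zero_add] at hrel
    exact hne (root_eq_of_par hc (hC.root k) hD hγ hrel)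
  refine ⟨n, e, O, i, j, k, hC, hi, hj, hkc, ⟨hij, hkj.symm, hki.symm, V, ?_, hVm, ?_, ?_, hVk⟩,
    ?_⟩
  · intro h
    rw [h] at hVV
    simp at hVV
  · rw [hi]; exact hVa'
  · rw [hj]; exact hVb'
  · intro m hmi hmj hmk
    have h1 : br G V (up (e m)) ≠ 0 := hij' m hmi hmj hmk
    have h2 : br G V (up (e m)) < 0 := lt_of_le_of_ne (hVm m) h1
    rw [hVup] at h2
    have h3 : G.det * d4 a b c (e m) < 0 := by exact_mod_cast h2
    by_contra hcon
    have h4 : 0 ≤ G.det * d4 a b c (e m) :=
      mul_nonneg_of_nonpos_of_nonpos hdet.le (not_lt.1 hcon)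
    omega

end Pool.Agent.Refl.H48
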