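import Pool.Agent.Helper23_Refl.StmtC3
import Pool.Agent.Helper59_Refl.Common

/-!
# Enumeration: the combinators of the kernel functions, decoding, and simple facts on chambers
-/

namespace Pool.Agent.Refl.H48.Enu

open Pool.Agent.Refl Pool.Agent.Refl.H59 Matrix

theorem fc_eq {α : Type} (n : ℕ) (f : ℕ → α) : K.fc n f = f n := by cases n <;> rfl

theorem ands_true {a b : Bool} : K.ands a b = true ↔ a = true ∧ b = true := by
  cases a <;> cases b <;> decide

theorem notb_true {b : Bool} : K.notb b = true ↔ b = false := by cases b <;> decide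

theorem beq_true {a b : ℕ} : Nat.beq a b = true ↔ a = b := by simp

theorem notb_beq {a b : ℕ} : K.notb (Nat.beq a b) = true ↔ a ≠ b := by
  rw [notb_true, ← Bool.not_eq_true, beq_true]

theorem ble_true {a b : ℕ} : Nat.ble a b = true ↔ a ≤ b := by simp

theorem blt_true {a b : ℕ} : Nat.blt a b = true ↔ a < b := by simp

/-- every success of `F k` leads to a success of `k` on a part of the list -/
def Su (F : K.Kt → K.Kt) : Prop := ∀ (k : K.Kt) (l : List ℕ), F k l = true →
  ∃ l', l' ⊆ l ∧ k l' = true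

/-- every success of `F k` reads the number `c` -/
def Em (c : ℕ) (S : Prop) (F : K.Kt → K.Kt) : Prop := ∀ (k : K.Kt) (l : List ℕ), F k l = true →
  c ∈ l ∧ S

theorem Su.id : Su (fun k => k) := fun _ l h => ⟨l, fun _ hx => hx, h⟩

theorem Su.ifb {b : Bool} {A : K.Kt → K.Kt} (hA : Su A) : Su (fun k => K.ifb b (A k) k) := by
  intro k l h
  cases b with
  | false => exact ⟨l, fun _ hx => hx, h⟩
  | true => exact hA k l h

theorem Su.ite {b : Bool} {A B : K.Kt → K.Kt} (hA : Su A) (hB : Su B) :
    Su (fun k => K.ifb b (A k) (B k)) := by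
  intro k l h
  cases b with
  | false => exact hB k l h
  | true => exact hA k l h

theorem Em.ifb {c : ℕ} {S : Prop} {b : Bool} {A B : K.Kt → K.Kt} (hb : b = true)
    (hA : Em c S A) : Em c S (fun k => K.ifb b (A k) (B k)) := by
  intro k l h
  subst hb
  exact hA k l h

theorem Em.ifb' {c : ℕ} {S : Prop} {b : Bool} {A B : K.Kt → K.Kt} (hb : b = false)
    (hB : Em c S B) : Em c S (fun k => K.ifb b (A k) (B k)) := by
  intro k l h
  subst hb
  exact hB k l h

theorem Su.fc {n : ℕ} {A : ℕ → K.Kt → K.Kt} (h : Su (A n)) :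
    Su (fun k l => K.fc n (fun b => A b k l)) := by
  intro k l hl
  replace hl : K.fc n (fun b => A b k l) = true := hl
  rw [fc_eq] at hl
  exact h k l hl

theorem Em.fc {c : ℕ} {S : Prop} {n : ℕ} {A : ℕ → K.Kt → K.Kt} (h : Em c S (A n)) :
    Em c S (fun k l => K.fc n (fun b => A b k l)) := by
  intro k l hl
  replace hl : K.fc n (fun b => A b k l) = true := hl
  rw [fc_eq] at hl
  exact h k l hl

theorem rng_succ (n : ℕ) (body : ℕ → K.Kt → K.Kt) (k : K.Kt) (x : ℕ) (l : List ℕ) :
    K.rng (n + 1) body k x l = body x (K.rng n body k (x + 1)) l := by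
  show K.fc x (fun x => body x (K.rng n body k (Nat.succ x)) l) = _
  rw [fc_eq]

theorem Su.rng {n : ℕ} {body : ℕ → K.Kt → K.Kt} (h : ∀ x, Su (body x)) (x : ℕ) :
    Su (fun k => K.rng n body k x) := by
  induction n generalizing x with
  | zero => intro k l hl; exact ⟨l, fun _ hx => hx, hl⟩
  | succ n ih =>
    intro k l hl
    replace hl : K.rng (n + 1) body k x l = true := hl
    rw [rng_succ] at hl
    obtain ⟨l1, h1, h2⟩ := h x _ l hl
    obtain ⟨l2, h3, h4⟩ := ih (x + 1) k l1 h2
    exact ⟨l2, fun y hy => h1 (h3 hy), h4⟩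

theorem Em.rng {c : ℕ} {S : Prop} {n : ℕ} {body : ℕ → K.Kt → K.Kt} (h : ∀ x, Su (body x))
    {x y : ℕ} (hx : x ≤ y) (hy : y < x + n) (he : Em c S (body y)) :
    Em c S (fun k => K.rng n body k x) := by
  induction n generalizing x with
  | zero => omega
  | succ n ih =>
    intro k l hl
    replace hl : K.rng (n + 1) body k x l = true := hl
    rw [rng_succ] at hl
    by_cases hxy : x = y
    · subst hxy; exact he _ l hl
    · obtain ⟨l1, h1, h2⟩ := h x _ l hl
      have := ih (x := x + 1) (by omega) (by omega) k l1 h2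
      exact ⟨h1 this.1, this.2⟩

theorem emit_spec {tag : ℕ} {ns : List ℕ} {k : K.Kt} {l : List ℕ}
    (h : K.emit tag ns k l = true) :
    K.small ns = true ∧ ∃ l', l = (4 * K.pk ns + tag) :: l' ∧ k l' = true := by
  unfold K.emit at h
  cases hs : K.small ns with
  | false => rw [hs] at h; exact absurd h Bool.false_ne_true
  | true =>
    rw [hs] at h
    have h' : K.eat (4 * K.pk ns + tag) k l = true := h
    refine ⟨rfl, ?_⟩
    cases l with
    | nil => exact absurd h' Bool.false_ne_true
    | cons a l' =>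
      have h'' : (Bool.rec false (k l') (Nat.beq a (4 * K.pk ns + tag)) : Bool) = true := h'
      cases hb : Nat.beq a (4 * K.pk ns + tag) with
      | false => rw [hb] at h''; exact absurd h'' Bool.false_ne_true
      | true =>
        rw [hb] at h''
        rw [beq_true] at hb
        exact ⟨l', by rw [hb], h''⟩

theorem Su.emit {tag : ℕ} {ns : List ℕ} : Su (fun k => K.emit tag ns k) := by
  intro k l h
  obtain ⟨_, l', rfl, h'⟩ := emit_spec h
  exact ⟨l', fun x hx => List.mem_cons_of_mem _ hx, h'⟩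

theorem Em.emit {tag : ℕ} {ns : List ℕ} :
    Em (4 * K.pk ns + tag) (K.small ns = true) (fun k => K.emit tag ns k) := by
  intro k l h
  obtain ⟨hs, l', rfl, _⟩ := emit_spec h
  exact ⟨List.mem_cons_self, hs⟩

/-! ### decoding -/

theorem small_cons {a : ℕ} {r : List ℕ} (h : K.small (a :: r) = true) :
    a < 4096 ∧ K.small r = true := by
  have h' : (Bool.rec false (K.small r) (Nat.blt a 4096) : Bool) = true := h
  cases hb : Nat.blt a 4096 with
  | false => rw [hb] at h'; exact absurd h' Bool.false_ne_true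
  | true => rw [hb] at h'; exact ⟨blt_true.1 hb, h'⟩

theorem pk_get : ∀ (i : ℕ) (ns : List ℕ), K.small ns = true →
    (K.pk ns >>> (12 * i)) % 4096 = ns.getD i 0
  | _, [], _ => by simp [K.pk]
  | 0, a :: r, h => by
    obtain ⟨h1, _⟩ := small_cons h
    have : K.pk (a :: r) = a + 4096 * K.pk r := rfl
    rw [this]
    simp only [mul_zero, Nat.shiftRight_zero, List.getD_cons_zero]
    omega
  | i + 1, a :: r, h => by
    obtain ⟨h1, h2⟩ := small_cons h
    have h3 : K.pk (a :: r) = a + 4096 * K.pk r := rfl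
    have h4 : K.pk (a :: r) >>> (12 * (i + 1)) = K.pk r >>> (12 * i) := by
      have : 12 * (i + 1) = 12 + 12 * i := by ring
      rw [this, Nat.shiftRight_add, h3]
      congr 1
      rw [Nat.shiftRight_eq_div_pow]
      norm_num
      omega
    rw [h4, List.getD_cons_succ]
    exact pk_get i r h2

theorem code_mod {tag c : ℕ} (h : tag < 4) : (4 * c + tag) % 4 = tag := by omega
theorem code_div {tag c : ℕ} (h : tag < 4) : (4 * c + tag) / 4 = c := by omega

/-! ### squares and square roots -/

theorem isq_true (hS : SqKStmt) {n : ℕ} (h : IsSquare n) : K.isq n = true := by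
  obtain ⟨r, rfl⟩ := h
  unfold K.isq
  rw [fc_eq, fc_eq, beq_true, hS]
  show Nat.sqrt (r * r) * Nat.sqrt (r * r) = r * r
  rw [Nat.sqrt_eq]

theorem pdU_true (hS : SqKStmt) {a b c : ℕ} (h : a + b + c + Nat.sqrt (a * b * c) < 4) :
    K.pdU a b c = true := by
  unfold K.pdU K.m3n
  rw [blt_true, hS]
  exact h

section chamber

variable {G : M4} {m : ℕ} {f : Fin m → Z4} {O : R4}

theorem obt2 (hC : Cham G m f O) {i j : Fin m} (h : i ≠ j) : bz G (f i) (f j) ≤ 0 := hC.obt i j h

theorem nn_lt (hL : Lat G) (hN : NNStmt) (hC : Cham G m f O) {i j : Fin m}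
    (h : 0 < g2 G (f i) (f j)) : nn G (f i) (f j) < 4 := by
  have h1 := (hN G (f i) (f j) hL (hC.root i) (hC.root j)).1
  have h2 := (hC.root i).pos
  have h3 := (hC.root j).pos
  unfold g2 at h
  have h4 : 0 < bz G (f i) (f i) * bz G (f j) (f j) := mul_pos h2 h3
  by_contra hcon
  push Not at hcon
  have h5 : (4 : ℤ) ≤ nn G (f i) (f j) := by exact_mod_cast hcon
  nlinarith

/-- the relation at a vertex -/
theorem pos3 (hL : Lat G) (hC : Cham G m f O) (hVP : VertexPosStmt) (hP : PosNStmt)
    {i j k : Fin m} (h : IsV G f i j k) :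
    nn G (f i) (f j) + nn G (f j) (f k) + nn G (f i) (f k) +
      Nat.sqrt (nn G (f i) (f j) * nn G (f j) (f k) * nn G (f i) (f k)) < 4 := by
  obtain ⟨h1, _, _, h4⟩ := hVP G m f O hL hC i j k h
  apply hP G (f i) (f j) (f k) hL ?_ h1 h4
  constructor
  · intro a ha
    simp only [List.mem_cons, List.not_mem_nil, or_false] at ha
    rcases ha with rfl | rfl | rfl <;> exact hC.root _
  · obtain ⟨a, b, c, _⟩ := h
    simp only [List.pairwise_cons, List.mem_cons, List.not_mem_nil, or_false, forall_eq_or_imp,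
      forall_eq, false_implies, implies_true, List.Pairwise.nil, and_true]
    exact ⟨⟨hC.obt i j a, hC.obt i k c⟩, hC.obt j k b⟩

theorem pdU3 (hS : SqKStmt) (hL : Lat G) (hC : Cham G m f O) (hVP : VertexPosStmt)
    (hP : PosNStmt) {i j k : Fin m} (h : IsV G f i j k) :
    K.pdU (nn G (f i) (f j)) (nn G (f i) (f k)) (nn G (f j) (f k)) = true := by
  apply pdU_true hS
  have := pos3 hL hC hVP hP h
  have e : nn G (f i) (f j) * nn G (f i) (f k) * nn G (f j) (f k) =
    nn G (f i) (f j) * nn G (f j) (f k) * nn G (f i) (f k) := by ring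
  rw [e]
  omega

/-- four independent facets -/
theorem indep4 (hL : Lat G) (hC : Cham G m f O) (hD : DetSignStmt) {i j k l : Fin m}
    (h : IsV G f i j k) (h1 : l ≠ i) (h2 : l ≠ j) (h3 : l ≠ k) :
    d4 (f i) (f j) (f k) (f l) ≠ 0 := by
  have := hD G m f O hL hC i j k l l h h1 h2 h3 h1 h2 h3
  intro h0
  rw [h0] at this
  simp at this

theorem obt4 (hC : Cham G m f O) {i j k l : Fin m} (h1 : i ≠ j) (h2 : i ≠ k) (h3 : i ≠ l)
    (h4 : j ≠ k) (h5 : j ≠ l) (h6 : k ≠ l) : Obt G [f i, f j, f k, f l] := by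
  constructor
  · intro a ha
    simp only [List.mem_cons, List.not_mem_nil, or_false] at ha
    rcases ha with rfl | rfl | rfl | rfl <;> exact hC.root _
  · simp only [List.pairwise_cons, List.mem_cons, List.not_mem_nil, or_false, forall_eq_or_imp,
      forall_eq, false_implies, implies_true, List.Pairwise.nil, and_true]
    exact ⟨⟨hC.obt _ _ h1, hC.obt _ _ h2, hC.obt _ _ h3⟩, ⟨hC.obt _ _ h4, hC.obt _ _ h5⟩,
      hC.obt _ _ h6⟩

/-- `D0 > 0` for four independent facets -/
theorem dpos4 (hS : SqKStmt) (hNeg : NegNStmt) (hL : Lat G) {a b c d : Z4}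
    (ho : Obt G [a, b, c, d]) (hd : d4 a b c d ≠ 0) :
    K.dpos (nn G a b) (nn G a c) (nn G b c) (nn G a d) (nn G b d) (nn G c d) = true := by
  have h := hNeg G a b c d hL ho hd
  simp only at h
  unfold K.dpos K.m3n K.m4n
  rw [blt_true, hS, hS, hS, hS, hS, hS, hS]
  have s1 := nn_symm hL.symm d a
  have s2 := nn_symm hL.symm d c
  have s3 := nn_symm hL.symm c a
  have s4 := nn_symm hL.symm c b
  rw [s1, s2, s3, s4] at h
  simp only [Nat.mul_eq, Nat.add_eq]
  have e1 : nn G a b * nn G a c * nn G b c = nn G a b * nn G b c * nn G a c := by ring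
  have e2 : nn G a b * nn G a d * nn G b d = nn G a b * nn G b d * nn G a d := by ring
  have e3 : nn G a c * nn G a d * nn G c d = nn G a c * nn G c d * nn G a d := by ring
  have e4 : nn G b c * nn G b d * nn G c d = nn G b c * nn G c d * nn G b d := by ring
  have e5 : nn G a b * nn G b c * (nn G c d * nn G a d) =
    nn G a b * nn G b c * nn G c d * nn G a d := by ring
  have e6 : nn G a b * nn G b d * (nn G c d * nn G a c) =
    nn G a b * nn G b d * nn G c d * nn G a c := by ring
  have e7 : nn G a c * nn G b c * (nn G b d * nn G a d) =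
    nn G a c * nn G b c * nn G b d * nn G a d := by ring
  rw [e1, e2, e3, e4, e5, e6, e7]
  zify
  linarith

theorem isq3 (hS : SqKStmt) (hN : NNStmt) (hL : Lat G) {a b c : Z4} (ha : IsRoot G a)
    (hb : IsRoot G b) (hc : IsRoot G c) :
    K.isq (K.m3n (nn G a b) (nn G a c) (nn G b c)) = true := by
  apply isq_true hS
  have h := (hN G a b hL ha hb).2.2.2 c hc
  have e : K.m3n (nn G a b) (nn G a c) (nn G b c) = nn G a b * nn G b c * nn G a c := by
    show nn G a b * nn G a c * nn G b c = _
    ring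
  rw [e]
  exact h

theorem isq4 (hS : SqKStmt) (hCy : CycStmt) (hL : Lat G) {a b c d : Z4} (ha : IsRoot G a)
    (hb : IsRoot G b) (hc : IsRoot G c) (hd : IsRoot G d) :
    K.isq (K.m4n (nn G a b) (nn G b c) (nn G c d) (nn G a d)) = true := by
  apply isq_true hS
  have h := hCy G a b c d hL ha hb hc hd
  have e : K.m4n (nn G a b) (nn G b c) (nn G c d) (nn G a d) =
      nn G a b * nn G b c * nn G c d * nn G d a := by
    show nn G a b * nn G b c * (nn G c d * nn G a d) = _
    rw [nn_symm hL.symm d a]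
    ring
  rw [e]
  exact h

end chamber

end Pool.Agent.Refl.H48.Enu
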